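import Pool.Graph.R_pool_sql_team_seeded_2aa45f1a.Q290.NF.LineQ

/-!
# The three point inequality over number fields: transfer along rational functions which are
unramified outside of `0, 1, ∞`
-/

set_option autoImplicit false

namespace Pool.Agent.H420.LC

open NumberField IsDedekindDomain Height Polynomial Pool.Agent.Q290.NF

variable {K : Type} [Field K] [NumberField K]

/-- `t` coincides with `0`, `∞` or `1` modulo `v` -/
def Nr (t : K) (v : HeightOneSpectrum (𝓞 K)) : Prop :=
  v.valuation K t < 1 ∨ 1 < v.valuation K t ∨ v.valuation K (t - 1) < 1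

theorem fin_nr {t : K} (h0 : t ≠ 0) (h1 : t ≠ 1) :
    {v : HeightOneSpectrum (𝓞 K) | Nr t v}.Finite := by
  refine ((fin_zero h0).union ((fin_pole t).union (fin_zero (sub_ne_zero.2 h1)))).subset ?_
  rintro v (h | h | h)
  · exact Or.inl h
  · exact Or.inr (Or.inl h)
  · exact Or.inr (Or.inr h)

/-- the three point inequality on the set `X` -/
def Ineq (X : Set K) : Prop :=
  ∀ ε : ℝ, 0 < ε → ∃ C : ℝ, ∀ t ∈ X, t ≠ 0 → t ≠ 1 →
    (1 - ε) * logHeight₁ t ≤ wt (Nr t) + C

theorem Ineq.mono {X Y : Set K} (h : Ineq Y) (hXY : X ⊆ Y) : Ineq X := by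
  intro ε hε
  obtain ⟨C, hC⟩ := h ε hε
  exact ⟨C, fun t ht => hC t (hXY ht)⟩

theorem ineq_bounded (B : ℝ) : Ineq {t : K | logHeight₁ t ≤ B} := by
  intro ε _
  refine ⟨|1 - ε| * |B|, fun t ht _ _ => ?_⟩
  have h1 := wt_nonneg (Nr t)
  have h2 := zero_le_logHeight₁ t
  have h3 : logHeight₁ t ≤ |B| := le_trans ht (le_abs_self B)
  have h4 : (1 - ε) * logHeight₁ t ≤ |1 - ε| * |B| := by
    calc (1 - ε) * logHeight₁ t ≤ |1 - ε| * logHeight₁ t :=
          mul_le_mul_of_nonneg_right (le_abs_self _) h2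
      _ ≤ _ := mul_le_mul_of_nonneg_left h3 (abs_nonneg _)
  linarith

theorem Ineq.union {X Y : Set K} (hX : Ineq X) (hY : Ineq Y) : Ineq (X ∪ Y) := by
  intro ε hε
  obtain ⟨C, hC⟩ := hX ε hε
  obtain ⟨D, hD⟩ := hY ε hε
  refine ⟨max C D, fun t ht h0 h1 => ?_⟩
  rcases ht with ht | ht
  · have := hC t ht h0 h1
    have := le_max_left C D
    linarith
  · have := hD t ht h0 h1
    have := le_max_right C D
    linarith

theorem ineq_biUnion {ι : Type} {s : Set ι} (hs : s.Finite) (X : ι → Set K)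
    (h : ∀ i ∈ s, Ineq (X i)) : Ineq (⋃ i ∈ s, X i) := by
  classical
  induction s, hs using Set.Finite.induction_on with
  | empty =>
    intro ε _
    refine ⟨0, fun t ht => ?_⟩
    simp at ht
  | @insert a s _ _ ih =>
    rw [Set.biUnion_insert]
    exact (h a (Set.mem_insert a s)).union (ih fun i hi => h i (Set.mem_insert_of_mem a hi))

/-- the data of a good map `g`: degree `n`, constant `C`, exceptional set `Z` -/
structure GoodAt (g : K → K) (n : ℕ) (C : ℝ) (Z : Set K) : Prop where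
  pos : 1 ≤ n
  nonneg : 0 ≤ C
  fin : Z.Finite
  ne0 : ∀ t, t ∉ Z → t ≠ 0 → t ≠ 1 → g t ≠ 0
  ne1 : ∀ t, t ∉ Z → t ≠ 0 → t ≠ 1 → g t ≠ 1
  le : ∀ t, t ∉ Z → t ≠ 0 → t ≠ 1 → logHeight₁ (g t) ≤ n * logHeight₁ t + C
  ge : ∀ t, t ∉ Z → t ≠ 0 → t ≠ 1 → n * logHeight₁ t ≤ logHeight₁ (g t) + C
  wt_le : ∀ t, t ∉ Z → t ≠ 0 → t ≠ 1 →
    wt (Nr (g t)) ≤ wt (Nr t) + ((n : ℝ) - 1) * logHeight₁ t + C

/-- good maps -/
def Good (g : K → K) : Prop := ∃ n C Z, GoodAt g n C Z

theorem Good.comp {f g : K → K} (hf : Good f) (hg : Good g) : Good (fun t => f (g t)) := by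
  classical
  obtain ⟨m, C, Z, hf⟩ := hf
  obtain ⟨n, D, W, hg⟩ := hg
  have hm1 : (1 : ℝ) ≤ m := by exact_mod_cast hf.pos
  have hn1 : (1 : ℝ) ≤ n := by exact_mod_cast hg.pos
  obtain ⟨B, hB⟩ : ∃ B : ℝ, ∀ z ∈ Z, logHeight₁ z ≤ B := by
    obtain ⟨B, hB⟩ := (hf.fin.image logHeight₁).bddAbove
    exact ⟨B, fun z hz => hB ⟨z, hz, rfl⟩⟩
  have hfin : {t : K | logHeight₁ t ≤ B + D}.Finite :=
    NumberField.finite_setOfPred_logHeight₁_le K _
  have key : ∀ t, t ∉ W ∪ {t : K | logHeight₁ t ≤ B + D} → t ≠ 0 → t ≠ 1 →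
      t ∉ W ∧ g t ∉ Z := by
    intro t ht h0 h1
    rw [Set.mem_union, not_or] at ht
    refine ⟨ht.1, fun hz => ht.2 ?_⟩
    have h2 := hg.ge t ht.1 h0 h1
    have h3 := hB _ hz
    have h4 := zero_le_logHeight₁ t
    show logHeight₁ t ≤ B + D
    nlinarith
  refine ⟨m * n, C + m * D, W ∪ {t : K | logHeight₁ t ≤ B + D},
    Nat.one_le_iff_ne_zero.2 (Nat.mul_ne_zero (by have := hf.pos; omega)
      (by have := hg.pos; omega)), ?_, hg.fin.union hfin, ?_, ?_, ?_, ?_, ?_⟩
  · have := hf.nonneg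
    have := hg.nonneg
    positivity
  · intro t ht h0 h1
    obtain ⟨h2, h3⟩ := key t ht h0 h1
    exact hf.ne0 _ h3 (hg.ne0 t h2 h0 h1) (hg.ne1 t h2 h0 h1)
  · intro t ht h0 h1
    obtain ⟨h2, h3⟩ := key t ht h0 h1
    exact hf.ne1 _ h3 (hg.ne0 t h2 h0 h1) (hg.ne1 t h2 h0 h1)
  · intro t ht h0 h1
    obtain ⟨h2, h3⟩ := key t ht h0 h1
    have h4 := hf.le _ h3 (hg.ne0 t h2 h0 h1) (hg.ne1 t h2 h0 h1)
    have h5 := hg.le t h2 h0 h1
    push_cast
    nlinarith
  · intro t ht h0 h1
    obtain ⟨h2, h3⟩ := key t ht h0 h1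
    have h4 := hf.ge _ h3 (hg.ne0 t h2 h0 h1) (hg.ne1 t h2 h0 h1)
    have h5 := hg.ge t h2 h0 h1
    push_cast
    nlinarith
  · intro t ht h0 h1
    obtain ⟨h2, h3⟩ := key t ht h0 h1
    have h4 := hf.wt_le _ h3 (hg.ne0 t h2 h0 h1) (hg.ne1 t h2 h0 h1)
    have h5 := hg.wt_le t h2 h0 h1
    have h6 := hg.le t h2 h0 h1
    have h7 := hg.nonneg
    push_cast
    have h8 : ((m : ℝ) - 1) * logHeight₁ (g t) ≤ ((m : ℝ) - 1) * (n * logHeight₁ t + D) :=
      mul_le_mul_of_nonneg_left h6 (by linarith)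
    nlinarith

/-- **transfer** of the inequality along good maps -/
theorem Ineq.transfer {X Y : Set K} (h : Ineq Y) {g : K → K} (hg : Good g)
    (hXY : ∀ t ∈ X, g t ∈ Y) : Ineq X := by
  classical
  obtain ⟨n, C, Z, hg⟩ := hg
  have hn : (1 : ℝ) ≤ n := by exact_mod_cast hg.pos
  obtain ⟨B, hB⟩ : ∃ B : ℝ, ∀ z ∈ Z, logHeight₁ z ≤ B := by
    obtain ⟨B, hB⟩ := (hg.fin.image logHeight₁).bddAbove
    exact ⟨B, fun z hz => hB ⟨z, hz, rfl⟩⟩
  have h1 : Ineq (X \ Z) := by
    intro ε hε
    obtain ⟨C₁, hC₁⟩ := h (ε / n) (by positivity)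
    refine ⟨2 * C + |C₁|, fun t ht h0 h1 => ?_⟩
    have a0 := hg.ne0 t ht.2 h0 h1
    have a1 := hg.ne1 t ht.2 h0 h1
    have a2 := hg.ge t ht.2 h0 h1
    have a3 := hg.wt_le t ht.2 h0 h1
    have a4 := hC₁ _ (hXY t ht.1) a0 a1
    have a5 := zero_le_logHeight₁ t
    have a6 := wt_nonneg (Nr t)
    have a7 := le_abs_self C₁
    have a8 := hg.nonneg
    have a9 := abs_nonneg C₁
    rcases le_or_gt ε 1 with hε1 | hε1
    · have b1 : ε / n ≤ 1 := by
        rw [div_le_one (by linarith)]
        linarith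
      have b2 : (1 - ε / n) * (n * logHeight₁ t - C) ≤ (1 - ε / n) * logHeight₁ (g t) :=
        mul_le_mul_of_nonneg_left (by linarith) (by linarith)
      have b3 : (1 - ε / n) * (n * logHeight₁ t - C) =
          (n - ε) * logHeight₁ t - (1 - ε / n) * C := by
        field_simp
      have b4 : (1 - ε / n) * C ≤ C := by
        have : 0 ≤ ε / n := by positivity
        nlinarith
      linarith
    · have b1 : (1 - ε) * logHeight₁ t ≤ 0 := mul_nonpos_of_nonpos_of_nonneg (by linarith) a5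
      linarith
  have h2 : Ineq {t : K | logHeight₁ t ≤ B} := ineq_bounded B
  refine (h1.union h2).mono fun t ht => ?_
  by_cases hz : t ∈ Z
  · exact Or.inr (hB t hz)
  · exact Or.inl ⟨ht, hz⟩

/-! ### rational functions -/

theorem rat_height_le (F G : K[X]) {n : ℕ} (hF : F.natDegree ≤ n) (hG : G.natDegree ≤ n) :
    ∃ C : ℝ, ∀ t : K, logHeight₁ (F.eval t / G.eval t) ≤ n * logHeight₁ t + C := by
  obtain ⟨C, hC⟩ := logHeight_eval_le' (K := K) (N := n)
    (p := fun j : Fin 2 => ![hom n F, hom n G] j) (by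
      intro j
      fin_cases j
      · exact hom_homogeneous n F
      · exact hom_homogeneous n G)
  refine ⟨C, fun t => ?_⟩
  have h1 := hC ![t, 1]
  have h2 : (fun j : Fin 2 => MvPolynomial.eval ![t, 1] (![hom n F, hom n G] j)) =
      ![F.eval t, G.eval t] := by
    funext j
    fin_cases j
    · exact hom_eval hF t
    · exact hom_eval hG t
  rw [h2, ← logHeight₁_eq_logHeight, ← logHeight₁_div_eq_logHeight] at h1
  linarith

omit [NumberField K] in
/-- a Bézout identity with a power of `X`, when `F` has the full degree -/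
theorem bezout_pow {F G : K[X]} (hc : IsCoprime F G) {n : ℕ} (hn : 1 ≤ n)
    (hF : F.natDegree = n) (hG : G.natDegree ≤ n) :
    ∃ A B : K[X], A.natDegree ≤ n ∧ B.natDegree ≤ n ∧ A * F + B * G = X ^ (n + n) := by
  obtain ⟨a, b, hab⟩ := hc
  have hF0 : F ≠ 0 := by
    rintro rfl
    rw [natDegree_zero] at hF
    omega
  obtain ⟨r, hr⟩ : ∃ r : K[X], r = (X ^ (n + n) * b) % F := ⟨_, rfl⟩
  obtain ⟨s, hs⟩ : ∃ s : K[X], s = (X ^ (n + n) * b) / F := ⟨_, rfl⟩
  have hdiv : F * s + r = X ^ (n + n) * b := by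
    rw [hs, hr]
    exact EuclideanDomain.div_add_mod _ _
  have hrd : r.natDegree < n := by
    rw [hr, ← hF]
    exact natDegree_mod_lt _ (by omega)
  have hsum : (X ^ (n + n) * a + s * G) * F + r * G = X ^ (n + n) := by
    have : (X ^ (n + n) * a + s * G) * F + r * G =
        X ^ (n + n) * (a * F) + (F * s + r) * G := by ring
    rw [this, hdiv]
    have : X ^ (n + n) * (a * F) + X ^ (n + n) * b * G = X ^ (n + n) * (a * F + b * G) := by
      ring
    rw [this, hab, mul_one]
  refine ⟨X ^ (n + n) * a + s * G, r, ?_, hrd.le, hsum⟩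
  rcases eq_or_ne (X ^ (n + n) * a + s * G) 0 with h0 | h0
  · rw [h0, natDegree_zero]
    exact Nat.zero_le _
  · have h1 : ((X ^ (n + n) * a + s * G) * F).natDegree =
        (X ^ (n + n) * a + s * G).natDegree + F.natDegree := natDegree_mul h0 hF0
    have h2 : (X ^ (n + n) * a + s * G) * F = X ^ (n + n) - r * G := by
      linear_combination hsum
    have h3 : (X ^ (n + n) - r * G : K[X]).natDegree ≤ n + n := by
      refine (natDegree_sub_le _ _).trans (max_le (natDegree_X_pow_le _) ?_)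
      exact natDegree_mul_le.trans (by omega)
    rw [← h2, h1] at h3
    omega

theorem rat_height_ge_aux {F G : K[X]} (hc : IsCoprime F G) {n : ℕ} (hn : 1 ≤ n)
    (hF : F.natDegree = n) (hG : G.natDegree ≤ n) :
    ∃ C : ℝ, ∀ t : K, n * logHeight₁ t ≤ logHeight₁ (F.eval t / G.eval t) + C := by
  obtain ⟨A, B, hA, hB, hAB⟩ := bezout_pow hc hn hF hG
  obtain ⟨a, b, hab⟩ := hc
  obtain ⟨M, hM⟩ : ∃ M, M = max n (max a.natDegree b.natDegree) := ⟨_, rfl⟩
  have hnM : n ≤ M := by rw [hM]; exact le_max_left _ _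
  have haM : a.natDegree ≤ M := by
    rw [hM]; exact (le_max_left _ _).trans (le_max_right _ _)
  have hbM : b.natDegree ≤ M := by
    rw [hM]; exact (le_max_right _ _).trans (le_max_right _ _)
  -- multiply the first identity by a power of `X`
  have hA' : (X ^ (M - n) * A).natDegree ≤ M :=
    natDegree_mul_le.trans (by have := natDegree_X_pow_le (R := K) (M - n); omega)
  have hB' : (X ^ (M - n) * B).natDegree ≤ M :=
    natDegree_mul_le.trans (by have := natDegree_X_pow_le (R := K) (M - n); omega)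
  obtain ⟨C, hC⟩ := logHeight_eval_ge' (K := K) (ι := Fin 2) (ι' := Fin 2) (M := M) (N := n)
    (q := fun c : Fin 2 × Fin 2 => (![![hom M (X ^ (M - n) * A), hom M (X ^ (M - n) * B)],
      ![hom M a, hom M b]] c.1) c.2) (by
      rintro ⟨i, j⟩
      fin_cases i <;> fin_cases j
      · exact hom_homogeneous M _
      · exact hom_homogeneous M _
      · exact hom_homogeneous M _
      · exact hom_homogeneous M _)
  refine ⟨-C, fun t => ?_⟩
  have h1 := hC (fun j : Fin 2 => ![hom n F, hom n G] j) (x := ![t, 1]) (by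
    intro k
    fin_cases k
    · have e1 := hom_eval hA' t
      have e2 := hom_eval hB' t
      have e3 := hom_eval hF.le t
      have e4 := hom_eval hG t
      have e5 : (X ^ (M - n) * A).eval t * F.eval t + (X ^ (M - n) * B).eval t * G.eval t =
          t ^ (M + n) := by
        rw [← eval_mul, ← eval_mul, ← eval_add]
        have : X ^ (M - n) * A * F + X ^ (M - n) * B * G = X ^ (M - n) * (A * F + B * G) := by
          ring
        rw [this, hAB, ← pow_add, eval_pow, eval_X]
        congr 1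
        omega
      simp only [Fin.sum_univ_two]
      simpa [e1, e2, e3, e4] using e5
    · have e1 := hom_eval haM t
      have e2 := hom_eval hbM t
      have e3 := hom_eval hF.le t
      have e4 := hom_eval hG t
      have e5 : a.eval t * F.eval t + b.eval t * G.eval t = 1 := by
        rw [← eval_mul, ← eval_mul, ← eval_add, hab, eval_one]
      simp only [Fin.sum_univ_two]
      simpa [e1, e2, e3, e4] using e5)
  have h2 : (fun j : Fin 2 => MvPolynomial.eval ![t, 1] (![hom n F, hom n G] j)) =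
      ![F.eval t, G.eval t] := by
    funext j
    fin_cases j
    · exact hom_eval hF.le t
    · exact hom_eval hG t
  rw [h2, ← logHeight₁_eq_logHeight, ← logHeight₁_div_eq_logHeight] at h1
  linarith

theorem rat_height_ge {F G : K[X]} (hc : IsCoprime F G) {n : ℕ} (hn : 1 ≤ n)
    (hF : F.natDegree ≤ n) (hG : G.natDegree ≤ n) (hd : F.natDegree = n ∨ G.natDegree = n) :
    ∃ C : ℝ, ∀ t : K, n * logHeight₁ t ≤ logHeight₁ (F.eval t / G.eval t) + C := by
  rcases hd with hd | hd
  · exact rat_height_ge_aux hc hn hd hG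
  · obtain ⟨C, hC⟩ := rat_height_ge_aux hc.symm hn hd hF
    refine ⟨C, fun t => ?_⟩
    rw [← logHeight₁_inv (F.eval t / G.eval t), inv_div]
    exact hC t

/-- `F / G` has degree `n`, and the points above `0, 1, ∞` are among `0`, `1`, `∞` and the zeros
of a polynomial of degree at most `n - 1` (by the formula of Riemann and Hurwitz there are at
least `n + 2` points above `0, 1, ∞`, and `n + 2` only if `F / G` is unramified elsewhere) -/
structure Bel (F G : K[X]) (n : ℕ) : Prop where
  pos : 1 ≤ n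
  coprime : IsCoprime F G
  degree : max F.natDegree G.natDegree = n
  points : ∃ R : K[X], R ≠ 0 ∧ R.natDegree ≤ n - 1 ∧
    ∃ M : ℕ, F * G * (F - G) ∣ (X * (X - 1) * R) ^ M

omit [NumberField K] in
theorem Bel.ne {F G : K[X]} {n : ℕ} (h : Bel F G n) : F * G * (F - G) ≠ 0 := by
  obtain ⟨R, hR0, -, M, Q, hQ⟩ := h.points
  intro h0
  rw [h0, zero_mul] at hQ
  have h1 : X * (X - 1) * R ≠ 0 := by
    refine mul_ne_zero (mul_ne_zero X_ne_zero ?_) hR0
    rw [← C_1]
    exact X_sub_C_ne_zero 1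
  exact pow_ne_zero M h1 hQ

theorem Bel.good {F G : K[X]} {n : ℕ} (h : Bel F G n) : Good (fun t => F.eval t / G.eval t) := by
  classical
  have hne := h.ne
  obtain ⟨R, hR0, hR, M, Q, hQ⟩ := h.points
  have hn := h.pos
  have hF : F.natDegree ≤ n := by rw [← h.degree]; exact le_max_left _ _
  have hG : G.natDegree ≤ n := by rw [← h.degree]; exact le_max_right _ _
  have hd : F.natDegree = n ∨ G.natDegree = n := by
    rcases max_choice F.natDegree G.natDegree with h1 | h1
    · left; rw [← h1, h.degree]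
    · right; rw [← h1, h.degree]
  obtain ⟨C₁, hC₁⟩ := rat_height_le F G hF hG
  obtain ⟨C₂, hC₂⟩ := rat_height_ge h.coprime hn hF hG hd
  obtain ⟨C₃, hC₃⟩ := poly_height_le (K := K) hR
  obtain ⟨a, b, hab⟩ := h.coprime
  -- the bad primes
  obtain ⟨T, hT⟩ : ∃ T : Set (HeightOneSpectrum (𝓞 K)), T = badP F ∪ badP G ∪
    badP a ∪ badP b ∪ badP Q := ⟨_, rfl⟩
  have hTfin : T.Finite := by
    rw [hT]
    exact ((((badP_fin F).union (badP_fin G)).union (badP_fin a)).union (badP_fin b)).union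
      (badP_fin Q)
  obtain ⟨Z, hZ⟩ : ∃ Z : Set K, Z = {t | (F * G * (F - G) * R).eval t = 0} := ⟨_, rfl⟩
  have hZfin : Z.Finite := by
    rw [hZ]
    refine (Polynomial.rootSet_finite (F * G * (F - G) * R) K).subset fun t ht => ?_
    rw [Polynomial.mem_rootSet']
    refine ⟨?_, ?_⟩
    · rw [Algebra.algebraMap_self, Polynomial.map_id]
      exact mul_ne_zero hne hR0
    · rw [Polynomial.coe_aeval_eq_eval]
      exact ht
  have hev : ∀ t, t ∉ Z → F.eval t ≠ 0 ∧ G.eval t ≠ 0 ∧ F.eval t - G.eval t ≠ 0 ∧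
      R.eval t ≠ 0 := by
    intro t ht
    rw [hZ] at ht
    have h1 : ¬ (F * G * (F - G) * R).eval t = 0 := ht
    rw [eval_mul, eval_mul, eval_mul, eval_sub, mul_eq_zero, mul_eq_zero, mul_eq_zero, not_or,
      not_or, not_or] at h1
    exact ⟨h1.1.1.1, h1.1.1.2, h1.1.2, h1.2⟩
  have hwT := wt_nonneg (K := K) (fun v => v ∈ T)
  refine ⟨n, |C₁| + |C₂| + |C₃| + wt (fun v => v ∈ T), Z, hn, ?_, hZfin, ?_, ?_, ?_, ?_, ?_⟩
  · positivity
  · intro t ht _ _
    obtain ⟨h1, h2, h3, -⟩ := hev t ht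
    exact div_ne_zero h1 h2
  · intro t ht _ _ h4
    obtain ⟨h1, h2, h3, -⟩ := hev t ht
    have h5 : F.eval t / G.eval t = 1 := h4
    rw [div_eq_one_iff_eq h2] at h5
    exact h3 (by rw [h5, sub_self])
  · intro t _ _ _
    have h1 := hC₁ t
    have h2 := le_abs_self C₁
    have h3 := abs_nonneg C₂
    have h4 := abs_nonneg C₃
    show logHeight₁ (F.eval t / G.eval t) ≤ _
    linarith
  · intro t _ _ _
    have h1 := hC₂ t
    have h2 := le_abs_self C₂
    have h3 := abs_nonneg C₁
    have h4 := abs_nonneg C₃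
    show _ ≤ logHeight₁ (F.eval t / G.eval t) + _
    linarith
  · intro t ht t0 t1
    obtain ⟨f1, f2, f3, f4⟩ := hev t ht
    have hfr := fin_zero (K := K) f4
    have hnr := fin_nr t0 t1
    have hsub : ∀ v, Nr (F.eval t / G.eval t) v →
        ((Nr t v ∨ v.valuation K (R.eval t) < 1) ∨ v ∈ T) := by
      intro v hv
      by_contra hcon
      rw [not_or, not_or] at hcon
      obtain ⟨⟨g1, g2⟩, g3⟩ := hcon
      have gt : v.valuation K t ≤ 1 := by
        by_contra h9
        exact g1 (Or.inr (Or.inl (not_le.1 h9)))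
      rw [hT] at g3
      simp only [Set.mem_union, not_or] at g3
      obtain ⟨⟨⟨⟨k1, k2⟩, k3⟩, k4⟩, k5⟩ := g3
      have eF := eval_le_one k1 gt
      have eG := eval_le_one k2 gt
      have ea := eval_le_one k3 gt
      have eb := eval_le_one k4 gt
      have eQ := eval_le_one k5 gt
      have vG0 : v.valuation K (G.eval t) ≠ 0 := (Valuation.ne_zero_iff _).2 f2
      have vF0 : v.valuation K (F.eval t) ≠ 0 := (Valuation.ne_zero_iff _).2 f1
      -- the product is not a unit
      have hprod : v.valuation K ((F * G * (F - G)).eval t) < 1 := by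
        rw [eval_mul, eval_mul, map_mul, map_mul]
        have eD : v.valuation K ((F - G).eval t) ≤ 1 := by
          rw [eval_sub]
          exact (Valuation.map_sub _ _ _).trans (max_le eF eG)
        rcases hv with h1 | h1 | h1
        · rw [map_div₀] at h1
          have h2 : v.valuation K (F.eval t) < 1 := by
            have := (div_lt_one₀ (zero_lt_iff.2 vG0)).1 h1
            exact this.trans_le eG
          exact mul_lt_one_of_lt_of_le (mul_lt_one_of_lt_of_le h2 eG) eD
        · rw [map_div₀] at h1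
          have h2 : v.valuation K (G.eval t) < 1 := by
            have := (one_lt_div₀ (zero_lt_iff.2 vG0)).1 h1
            exact this.trans_le eF
          exact mul_lt_one_of_lt_of_le (by
            rw [mul_comm]; exact mul_lt_one_of_lt_of_le h2 eF) eD
        · have h2 : F.eval t / G.eval t - 1 = (F - G).eval t / G.eval t := by
            rw [eval_sub]
            field_simp
          rw [h2, map_div₀] at h1
          have h3 : v.valuation K ((F - G).eval t) < 1 := by
            have := (div_lt_one₀ (zero_lt_iff.2 vG0)).1 h1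
            exact this.trans_le eG
          rw [mul_comm]
          exact mul_lt_one_of_lt_of_le h3 (mul_le_one' eF eG)
      have hpow : v.valuation K ((t * (t - 1) * R.eval t) ^ M) < 1 := by
        have h1 : (t * (t - 1) * R.eval t) ^ M = (F * G * (F - G)).eval t * Q.eval t := by
          rw [← eval_mul, ← hQ]
          simp
        rw [h1, map_mul]
        exact mul_lt_one_of_lt_of_le hprod eQ
      have ht1 : v.valuation K t = 1 := by
        refine le_antisymm gt ?_
        by_contra h9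
        exact g1 (Or.inl (not_le.1 h9))
      have ht2 : v.valuation K (t - 1) = 1 := by
        refine le_antisymm ?_ ?_
        · exact (Valuation.map_sub _ _ _).trans (max_le gt (by rw [map_one]))
        · by_contra h9
          exact g1 (Or.inr (Or.inr (not_le.1 h9)))
      rw [map_pow, map_mul, map_mul, ht1, ht2, one_mul, one_mul] at hpow
      exact absurd hpow (not_lt.2 (one_le_pow₀ (not_lt.1 g2)))
    have h1 : wt (Nr (F.eval t / G.eval t)) ≤
        (wt (Nr t) + wt (fun v : HeightOneSpectrum (𝓞 K) => v.valuation K (R.eval t) < 1)) +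
          wt (fun v => v ∈ T) := by
      refine (wt_mono ((hnr.union hfr).union hTfin) hsub).trans ?_
      refine (wt_or_le (hnr.union hfr) hTfin).trans ?_
      exact add_le_add (wt_or_le hnr hfr) le_rfl
    have h2 := zero_wt' (K := K) f4
    have h3 := hC₃ t
    have h4 := le_abs_self C₃
    have h5 := abs_nonneg C₁
    have h6 := abs_nonneg C₂
    have h7 : ((n - 1 : ℕ) : ℝ) = (n : ℝ) - 1 := by
      rw [Nat.cast_sub hn, Nat.cast_one]
    rw [h7] at h3
    show wt (Nr (F.eval t / G.eval t)) ≤ _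
    linarith

end Pool.Agent.H420.LC
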