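import Pool.Agent.H420.LC.Localise
import Pool.Graph.R_pool_sql_team_seeded_2aa45f1a.Results.MP_4d5ce1_nt.ThinSetsSuffice

/-!
# From the inequality for `q` points to the three point inequality
-/

set_option autoImplicit false

namespace Pool.Agent.H420.LC

open NumberField IsDedekindDomain Height Polynomial Pool.Agent.Q290.NF
open Pool.Agent.Results.MP_4d5ce1_nt.ThinSetsSuffice

variable {K : Type} [Field K] [NumberField K]

/-- the determinant of two vectors -/
def wg (u v : Fin 2 → K) : K := u 0 * v 1 - u 1 * v 0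

/-- the cross ratio: `0` at `a`, `1` at `b`, `∞` at `c` -/
noncomputable def cr (a b c x : Fin 2 → K) : K := (wg x a * wg b c) / (wg x c * wg b a)

/-- the point with cross ratio `t` -/
noncomputable def pt (a b c : Fin 2 → K) (t : K) : Fin 2 → K :=
  fun i => wg b c / wg a c * a i + t * (wg a b / wg a c) * c i

omit [NumberField K] in
theorem wg_pt (a b c u : Fin 2 → K) (t : K) :
    wg (pt a b c t) u = wg b c / wg a c * wg a u + t * (wg a b / wg a c) * wg c u := by
  unfold pt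
  generalize wg b c / wg a c = A
  generalize wg a b / wg a c = B
  unfold wg
  ring

omit [NumberField K] in
theorem wg_swap (u v : Fin 2 → K) : wg u v = -wg v u := by
  unfold wg
  ring

omit [NumberField K] in
theorem wg_self (u : Fin 2 → K) : wg u u = 0 := by
  unfold wg
  ring

omit [NumberField K] in
theorem wg_pt_a (a b c : Fin 2 → K) (t : K) :
    wg (pt a b c t) a = t * (wg a b / wg a c * wg c a) := by
  rw [wg_pt, wg_self]
  ring

omit [NumberField K] in
theorem wg_pt_c {a b c : Fin 2 → K} (hac : wg a c ≠ 0) (t : K) :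
    wg (pt a b c t) c = wg b c := by
  rw [wg_pt, wg_self, mul_zero, add_zero, div_mul_cancel₀ _ hac]

omit [NumberField K] in
theorem wg_pt_b {a b c : Fin 2 → K} (t : K) :
    wg (pt a b c t) b = (1 - t) * (wg a b * wg b c / wg a c) := by
  rw [wg_pt, wg_swap c b]
  ring

omit [NumberField K] in
theorem cr_pt {a b c : Fin 2 → K} (hac : wg a c ≠ 0) (hab : wg a b ≠ 0) (hbc : wg b c ≠ 0)
    (t : K) : cr a b c (pt a b c t) = t := by
  unfold cr
  rw [wg_pt_a, wg_pt_c hac, wg_swap c a, wg_swap b a]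
  field_simp

omit [NumberField K] in
theorem pt_ne_zero {a b c : Fin 2 → K} (hac : wg a c ≠ 0) (hbc : wg b c ≠ 0) (t : K) :
    pt a b c t ≠ 0 := by
  intro h
  apply hbc
  rw [← wg_pt_c (b := b) hac t, h]
  simp [wg]

/-! ### heights -/

theorem height_cr_le (a b c : Fin 2 → K) : ∃ C : ℝ, ∀ x : Fin 2 → K,
    logHeight₁ (cr a b c x) ≤ logHeight x + C := by
  obtain ⟨C, hC⟩ := logHeight_eval_le' (K := K) (ι := Fin 2) (N := 1)
    (p := fun j : Fin 2 => ![MvPolynomial.C (wg b c) * (MvPolynomial.C (a 1) * MvPolynomial.X 0 -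
        MvPolynomial.C (a 0) * MvPolynomial.X 1),
      MvPolynomial.C (wg b a) * (MvPolynomial.C (c 1) * MvPolynomial.X 0 -
        MvPolynomial.C (c 0) * MvPolynomial.X 1)] j) (by
      have hl : ∀ e f g : K, (MvPolynomial.C e * (MvPolynomial.C f * MvPolynomial.X 0 -
          MvPolynomial.C g * MvPolynomial.X 1) : MvPolynomial (Fin 2) K).IsHomogeneous 1 := by
        intro e f g
        have h1 : ∀ (f : K) (i : Fin 2),
            (MvPolynomial.C f * MvPolynomial.X i : MvPolynomial (Fin 2) K).IsHomogeneous 1 := by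
          intro f i
          have := (MvPolynomial.isHomogeneous_C (Fin 2) f).mul
            (MvPolynomial.isHomogeneous_X K i)
          rwa [zero_add] at this
        have := (MvPolynomial.isHomogeneous_C (Fin 2) e).mul ((h1 f 0).sub (h1 g 1))
        rwa [zero_add] at this
      intro j
      fin_cases j
      · exact hl _ _ _
      · exact hl _ _ _)
  refine ⟨C, fun x => ?_⟩
  have h1 := hC x
  have h2 : (fun j : Fin 2 => MvPolynomial.eval x (![MvPolynomial.C (wg b c) *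
      (MvPolynomial.C (a 1) * MvPolynomial.X 0 - MvPolynomial.C (a 0) * MvPolynomial.X 1),
      MvPolynomial.C (wg b a) * (MvPolynomial.C (c 1) * MvPolynomial.X 0 -
        MvPolynomial.C (c 0) * MvPolynomial.X 1)] j)) =
      ![wg x a * wg b c, wg x c * wg b a] := by
    funext j
    fin_cases j
    · simp [wg]
      ring
    · simp [wg]
      ring
  rw [h2, ← logHeight₁_div_eq_logHeight] at h1
  unfold cr
  push_cast at h1
  linarith

/-! ### the counting function -/

/-- the three disjoint conditions -/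
theorem three_nr {t : K} (h0 : t ≠ 0) (h1 : t ≠ 1) :
    wt (fun v : HeightOneSpectrum (𝓞 K) => v.valuation K t < 1) +
      wt (fun v : HeightOneSpectrum (𝓞 K) => v.valuation K (t - 1) < 1) +
      wt (fun v : HeightOneSpectrum (𝓞 K) => 1 < v.valuation K t) ≤ wt (Nr t) := by
  have f0 := fin_zero (K := K) h0
  have f1 := fin_zero (K := K) (sub_ne_zero.2 h1)
  have f2 := fin_pole (K := K) t
  have s1 := wt_add f0 f1
  have s2 := wt_add (P := fun v : HeightOneSpectrum (𝓞 K) => v.valuation K t < 1 ∨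
    v.valuation K (t - 1) < 1) (f0.union f1) f2
  have s3 : wt (fun v : HeightOneSpectrum (𝓞 K) => v.valuation K t < 1 ∧
      v.valuation K (t - 1) < 1) = 0 := by
    refine wt_false fun v hv => ?_
    have h2 : v.valuation K (1 : K) < 1 := by
      have e : (1 : K) = t - (t - 1) := by ring
      calc v.valuation K (1 : K) = v.valuation K (t - (t - 1)) := by rw [← e]
        _ < 1 := Valuation.map_sub_lt _ hv.1 hv.2
    rw [map_one] at h2
    exact lt_irrefl _ h2
  have s4 : wt (fun v : HeightOneSpectrum (𝓞 K) => (v.valuation K t < 1 ∨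
      v.valuation K (t - 1) < 1) ∧ 1 < v.valuation K t) = 0 := by
    refine wt_false fun v hv => ?_
    rcases hv.1 with h2 | h2
    · exact absurd hv.2 (not_lt.2 h2.le)
    · have h3 : v.valuation K (t - 1) = v.valuation K t :=
        Valuation.map_sub_eq_of_lt_left _ (by rw [map_one]; exact hv.2)
      rw [h3] at h2
      exact absurd hv.2 (not_lt.2 h2.le)
  have s5 : wt (fun v : HeightOneSpectrum (𝓞 K) => (v.valuation K t < 1 ∨
      v.valuation K (t - 1) < 1) ∨ 1 < v.valuation K t) ≤ wt (Nr t) := by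
    refine wt_mono (fin_nr h0 h1) fun v hv => ?_
    rcases hv with (h2 | h2) | h2
    · exact Or.inl h2
    · exact Or.inr (Or.inr h2)
    · exact Or.inr (Or.inl h2)
  linarith

/-- linear forms which are not a multiple of the variable -/
theorem meet_lin {v : HeightOneSpectrum (𝓞 K)} {t τ B L : K} (hL : L = B * (t - τ))
    (hB : ¬ v.valuation K B < 1) (hτ : ¬ 1 < v.valuation K τ)
    (h : v.valuation K L < max (v.valuation K t) 1) : v.valuation K (t - τ) < 1 := by
  rw [not_lt] at hB hτ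
  have h1 : v.valuation K (t - τ) ≤ v.valuation K L := by
    rw [hL, map_mul]
    exact le_mul_of_one_le_left' hB
  have h2 := h1.trans_lt h
  rcases le_or_gt (v.valuation K t) 1 with h3 | h3
  · rwa [max_eq_right h3] at h2
  · exfalso
    have h4 : v.valuation K (t - τ) = v.valuation K t :=
      Valuation.map_sub_eq_of_lt_left _ (hτ.trans_lt h3)
    rw [h4, max_eq_left h3.le] at h2
    exact lt_irrefl _ h2

theorem sub_height (τ : K) : ∃ C : ℝ, 0 ≤ C ∧ ∀ t : K, t ≠ τ →
    wt (fun v : HeightOneSpectrum (𝓞 K) => v.valuation K (t - τ) < 1) ≤ logHeight₁ t + C := by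
  obtain ⟨C, hC⟩ := poly_height_le (K := K) (m := 1) (P := X - Polynomial.C τ)
    (natDegree_X_sub_C_le τ)
  refine ⟨|C|, abs_nonneg C, fun t ht => ?_⟩
  have h1 := zero_wt' (K := K) (sub_ne_zero.2 ht)
  have h2 := hC t
  rw [eval_sub, eval_X, eval_C] at h2
  have h3 := le_abs_self C
  push_cast at h2
  linarith

/-- the four kinds of points -/
theorem kinds {q : ℕ} {α : Fin q → Fin 2 → K} (hdist : ∀ i j, i ≠ j → wg (α i) (α j) ≠ 0)
    {i₀ i₁ i₂ : Fin q} (h01 : i₀ ≠ i₁) (h02 : i₀ ≠ i₂) (h12 : i₁ ≠ i₂) :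
    ∃ T : Set (HeightOneSpectrum (𝓞 K)), T.Finite ∧ ∃ Z : Set K, Z.Finite ∧ ∃ C : ℝ, 0 ≤ C ∧
      (∀ v ∉ T, ∀ t : K, (Meet (α i₀) (pt (α i₀) (α i₁) (α i₂) t) v → v.valuation K t < 1) ∧
        (Meet (α i₁) (pt (α i₀) (α i₁) (α i₂) t) v → v.valuation K (t - 1) < 1) ∧
        (Meet (α i₂) (pt (α i₀) (α i₁) (α i₂) t) v → 1 < v.valuation K t)) ∧
      (∀ l, l ≠ i₀ → l ≠ i₁ → l ≠ i₂ → ∀ t ∉ Z,
        wg (pt (α i₀) (α i₁) (α i₂) t) (α l) ≠ 0 ∧
        wt (fun v => v ∉ T ∧ Meet (α l) (pt (α i₀) (α i₁) (α i₂) t) v) ≤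
          logHeight₁ t + C) := by
  classical
  obtain ⟨a, ha⟩ : ∃ a, a = α i₀ := ⟨_, rfl⟩
  obtain ⟨b, hb⟩ : ∃ b, b = α i₁ := ⟨_, rfl⟩
  obtain ⟨c, hc⟩ : ∃ c, c = α i₂ := ⟨_, rfl⟩
  have hab : wg a b ≠ 0 := by rw [ha, hb]; exact hdist _ _ h01
  have hac : wg a c ≠ 0 := by rw [ha, hc]; exact hdist _ _ h02
  have hbc : wg b c ≠ 0 := by rw [hb, hc]; exact hdist _ _ h12
  have hca : wg c a ≠ 0 := by rw [ha, hc]; exact hdist _ _ h02.symm
  obtain ⟨A, hA⟩ : ∃ A : K, A = wg b c / wg a c := ⟨_, rfl⟩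
  obtain ⟨B, hB⟩ : ∃ B : K, B = wg a b / wg a c := ⟨_, rfl⟩
  have hA0 : A ≠ 0 := by rw [hA]; exact div_ne_zero hbc hac
  have hB0 : B ≠ 0 := by rw [hB]; exact div_ne_zero hab hac
  have hpt : ∀ t i, pt a b c t i = A * a i + t * B * c i := by
    intro t i
    rw [hA, hB]
    rfl
  -- the zeros of the linear forms
  obtain ⟨τ, hτ⟩ : ∃ τ : Fin q → K, ∀ l, τ l = -(A * wg a (α l)) / (B * wg c (α l)) :=
    ⟨_, fun _ => rfl⟩
  obtain ⟨T, hT⟩ : ∃ T : Set (HeightOneSpectrum (𝓞 K)),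
      T = (⋃ l : Fin q, ⋃ i : Fin 2, {v | 1 < v.valuation K (α l i)}) ∪
        {v | 1 < v.valuation K A} ∪ {v | 1 < v.valuation K B} ∪
        {v | v.valuation K (B * wg c a) < 1} ∪ {v | v.valuation K (wg b c) < 1} ∪
        {v | v.valuation K (-(wg a b * wg b c / wg a c)) < 1} ∪
        (⋃ l : Fin q, {v | 1 < v.valuation K (τ l)}) ∪
        (⋃ l ∈ {l : Fin q | l ≠ i₂}, {v | v.valuation K (B * wg c (α l)) < 1}) := ⟨_, rfl⟩
  have hTfin : T.Finite := by
    rw [hT]
    refine (((((((Set.finite_iUnion fun l => Set.finite_iUnion fun i => fin_pole _).union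
      (fin_pole _)).union (fin_pole _)).union (fin_zero (mul_ne_zero hB0 hca))).union
      (fin_zero hbc)).union (fin_zero (neg_ne_zero.2 (div_ne_zero (mul_ne_zero hab hbc) hac)))
      ).union (Set.finite_iUnion fun l => fin_pole _)).union ?_
    refine Set.Finite.biUnion (Set.toFinite _) fun l hl => fin_zero (mul_ne_zero hB0 ?_)
    rw [hc]
    exact hdist _ _ (Ne.symm hl)
  have hcon : ∀ v ∉ T, (∀ l i, v.valuation K (α l i) ≤ 1) ∧ v.valuation K A ≤ 1 ∧
      v.valuation K B ≤ 1 ∧ ¬ v.valuation K (B * wg c a) < 1 ∧ ¬ v.valuation K (wg b c) < 1 ∧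
      ¬ v.valuation K (-(wg a b * wg b c / wg a c)) < 1 ∧ (∀ l, ¬ 1 < v.valuation K (τ l)) ∧
      ∀ l, l ≠ i₂ → ¬ v.valuation K (B * wg c (α l)) < 1 := by
    intro v hv
    rw [hT] at hv
    simp only [Set.mem_union, Set.mem_iUnion, not_or, not_exists, Set.mem_ofPred_eq] at hv
    obtain ⟨⟨⟨⟨⟨⟨⟨g1, g2⟩, g3⟩, g4⟩, g5⟩, g6⟩, g7⟩, g8⟩ := hv
    exact ⟨fun l i => not_lt.1 (g1 l i), not_lt.1 g2, not_lt.1 g3, g4, g5, g6, g7,
      fun l hl => g8 l hl⟩
  -- the maxima
  have hmax : ∀ v ∉ T, ∀ t l, Meet (α l) (pt a b c t) v →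
      v.valuation K (wg (pt a b c t) (α l)) < max (v.valuation K t) 1 := by
    intro v hv t l hm
    obtain ⟨g1, g2, g3, -⟩ := hcon v hv
    refine lt_of_lt_of_le hm ?_
    have e1 : ∀ i, v.valuation K (pt a b c t i) ≤ max (v.valuation K t) 1 := by
      intro i
      rw [hpt]
      refine (Valuation.map_add _ _ _).trans (max_le ?_ ?_)
      · refine le_trans ?_ (le_max_right _ _)
        rw [map_mul, ha]
        exact mul_le_one' g2 (g1 _ _)
      · refine le_trans ?_ (le_max_left _ _)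
        rw [map_mul, map_mul, mul_assoc, hc]
        exact mul_le_of_le_one_right' (mul_le_one' g3 (g1 _ _))
    have e2 : max (v.valuation K (α l 0)) (v.valuation K (α l 1)) ≤ 1 :=
      max_le (g1 _ _) (g1 _ _)
    have e3 : max (v.valuation K (pt a b c t 0)) (v.valuation K (pt a b c t 1)) ≤
        max (v.valuation K t) 1 := max_le (e1 0) (e1 1)
    calc _ ≤ max (v.valuation K t) 1 * 1 := mul_le_mul' e3 e2
      _ = _ := mul_one _
  -- the other points
  have hlin : ∀ l, l ≠ i₂ → ∀ t, wg (pt a b c t) (α l) = (B * wg c (α l)) * (t - τ l) := by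
    intro l hl t
    have h1 : wg c (α l) ≠ 0 := by rw [hc]; exact hdist _ _ (Ne.symm hl)
    rw [wg_pt, hτ, ← hA, ← hB]
    field_simp
    ring
  obtain ⟨C, hC0, hC⟩ : ∃ C : ℝ, 0 ≤ C ∧ ∀ l, ∀ t : K, t ≠ τ l →
      wt (fun v : HeightOneSpectrum (𝓞 K) => v.valuation K (t - τ l) < 1) ≤
        logHeight₁ t + C := by
    choose D hD0 hD using fun l : Fin q => sub_height (τ l)
    refine ⟨∑ l, D l, Finset.sum_nonneg fun l _ => hD0 l, fun l t ht => ?_⟩
    have h1 := hD l t ht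
    have h2 : D l ≤ ∑ l, D l := Finset.single_le_sum (fun l _ => hD0 l) (Finset.mem_univ l)
    linarith
  refine ⟨T, hTfin, Set.range τ, Set.finite_range τ, C, hC0, ?_, ?_⟩
  · intro v hv t
    obtain ⟨g1, g2, g3, g4, g5, g6, g7, g8⟩ := hcon v hv
    rw [← ha, ← hb, ← hc]
    refine ⟨fun hm => ?_, fun hm => ?_, fun hm => ?_⟩
    · rw [ha] at hm
      have h1 := hmax v hv t i₀ (by rw [ha]; exact hm)
      have h2 : v.valuation K (t - 0) < 1 := by
        refine meet_lin (B := B * wg c a) (τ := 0) ?_ g4 (by simp) h1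
        rw [← ha, wg_pt_a, hB]
        ring
      rwa [sub_zero] at h2
    · rw [hb] at hm
      have h1 := hmax v hv t i₁ (by rw [hb]; exact hm)
      refine meet_lin (B := -(wg a b * wg b c / wg a c)) (τ := 1) ?_ g6 (by simp) h1
      rw [← hb, wg_pt_b]
      ring
    · rw [hc] at hm
      have h1 := hmax v hv t i₂ (by rw [hc]; exact hm)
      rw [← hc, wg_pt_c hac] at h1
      rw [not_lt] at g5
      have h2 := g5.trans_lt h1
      rcases lt_max_iff.1 h2 with h3 | h3
      · exact h3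
      · exact absurd h3 (lt_irrefl _)
  · intro l h0 h1 h2 t ht
    rw [← ha, ← hb, ← hc]
    have hne : t ≠ τ l := fun h => ht ⟨l, h.symm⟩
    have hcl : wg c (α l) ≠ 0 := by rw [hc]; exact hdist _ _ (Ne.symm h2)
    refine ⟨?_, ?_⟩
    · rw [hlin l h2 t]
      exact mul_ne_zero (mul_ne_zero hB0 hcl) (sub_ne_zero.2 hne)
    · refine le_trans (wt_mono (fin_zero (sub_ne_zero.2 hne)) fun v hv => ?_) (hC l t hne)
      obtain ⟨g1, g2, g3, g4, g5, g6, g7, g8⟩ := hcon v hv.1
      exact meet_lin (hlin l h2 t) (g8 l h2) (g7 l) (hmax v hv.1 t l hv.2)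

/-- the inequality for `q` points implies the three point inequality -/
theorem ineq_of_inequality {q : ℕ} {S : Finset (HeightOneSpectrum (𝓞 K))}
    {α : Fin q → Fin 2 → K} (hdist : ∀ i j, i ≠ j → wg (α i) (α j) ≠ 0)
    {i₀ i₁ i₂ : Fin q} (h01 : i₀ ≠ i₁) (h02 : i₀ ≠ i₂) (h12 : i₁ ≠ i₂)
    {Y : Set (Fin 2 → K)} (h : Inequality S α Y) {X : Set K}
    (hXY : ∀ t ∈ X, pt (α i₀) (α i₁) (α i₂) t ∈ Y) : Ineq X := by
  classical
  obtain ⟨T, hT, Z, hZ, C₁, hC₁, k1, k2⟩ := kinds hdist h01 h02 h12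
  obtain ⟨C₂, hC₂⟩ := height_cr_le (α i₀) (α i₁) (α i₂)
  obtain ⟨a, ha⟩ : ∃ a, a = α i₀ := ⟨_, rfl⟩
  obtain ⟨b, hb⟩ : ∃ b, b = α i₁ := ⟨_, rfl⟩
  obtain ⟨c, hc⟩ : ∃ c, c = α i₂ := ⟨_, rfl⟩
  have hab : wg a b ≠ 0 := by rw [ha, hb]; exact hdist _ _ h01
  have hac : wg a c ≠ 0 := by rw [ha, hc]; exact hdist _ _ h02
  have hbc : wg b c ≠ 0 := by rw [hb, hc]; exact hdist _ _ h12
  have hca : wg c a ≠ 0 := by rw [ha, hc]; exact hdist _ _ h02.symm
  rw [← ha, ← hb, ← hc] at k1 k2 hC₂ hXY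
  obtain ⟨d, hd⟩ : ∃ d : ℝ, d = (Module.finrank ℚ K : ℝ) := ⟨_, rfl⟩
  have hd0 : 0 < d := by rw [hd]; exact_mod_cast Module.finrank_pos
  have hq3 : (3 : ℝ) ≤ q := by
    have h3 : ({i₀, i₁, i₂} : Finset (Fin q)).card ≤ q := by
      have := Finset.card_le_univ ({i₀, i₁, i₂} : Finset (Fin q))
      rwa [Fintype.card_fin] at this
    have h4 : ({i₀, i₁, i₂} : Finset (Fin q)).card = 3 := by
      rw [Finset.card_insert_of_notMem, Finset.card_insert_of_notMem, Finset.card_singleton]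
      · rw [Finset.mem_singleton]; exact h12
      · rw [Finset.mem_insert, Finset.mem_singleton, not_or]; exact ⟨h01, h02⟩
    rw [h4] at h3
    exact_mod_cast h3
  refine Ineq.add_finite hZ ?_
  intro ε hε
  rcases le_or_gt ε 1 with hε1 | hε1
  swap
  · refine ⟨0, fun t _ _ _ => ?_⟩
    have h1 := zero_le_logHeight₁ t
    have h2 := wt_nonneg (Nr t)
    nlinarith
  obtain ⟨C₃, hC₃⟩ := h ε hε
  obtain ⟨W, hW⟩ : ∃ W : ℝ, W = wt (fun v : HeightOneSpectrum (𝓞 K) => v ∈ T) := ⟨_, rfl⟩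
  have hW0 : 0 ≤ W := by rw [hW]; exact wt_nonneg _
  obtain ⟨R, hR⟩ : ∃ R : ℝ, R = (q : ℝ) * (W + C₁) + d * |C₃| + (q - 2) * |C₂| := ⟨_, rfl⟩
  refine ⟨R, fun t ht t0 t1 => ?_⟩
  obtain ⟨x, hx⟩ : ∃ x, x = pt a b c t := ⟨_, rfl⟩
  have hx0 : x ≠ 0 := by rw [hx]; exact pt_ne_zero hac hbc t
  have hne : ∀ l, wg x (α l) ≠ 0 := by
    intro l
    rw [hx]
    rcases eq_or_ne l i₀ with rfl | e0
    · rw [← ha, wg_pt_a]
      exact mul_ne_zero t0 (mul_ne_zero (div_ne_zero hab hac) hca)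
    · rcases eq_or_ne l i₁ with rfl | e1
      · rw [← hb, wg_pt_b]
        exact mul_ne_zero (sub_ne_zero.2 (Ne.symm t1)) (div_ne_zero (mul_ne_zero hab hbc) hac)
      · rcases eq_or_ne l i₂ with rfl | e2
        · rw [← hc, wg_pt_c hac]
          exact hbc
        · exact (k2 l e0 e1 e2 t ht.2).1
  have h1 := hC₃ x (by rw [hx]; exact hXY t ht.1) hx0 hne
  rw [counting_eq S hne, ← hd] at h1
  -- the sum over the points
  have hfin : ∀ l, {v : HeightOneSpectrum (𝓞 K) | Meet (α l) x v}.Finite := fun l =>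
    meet_fin (hne l)
  obtain ⟨g, hg⟩ : ∃ g : Fin q → ℝ, ∀ l, g l = wt (fun v => v ∉ S ∧ Meet (α l) x v) :=
    ⟨_, fun _ => rfl⟩
  have hgT : ∀ l, g l ≤ wt (fun v => v ∉ T ∧ Meet (α l) x v) + W := by
    intro l
    rw [hg, hW]
    refine le_trans (wt_mono (Q := fun v => (v ∉ T ∧ Meet (α l) x v) ∨ v ∈ T)
      (((hfin l).subset fun v hv => hv.2).union hT) fun v hv => ?_)
      (wt_or_le ((hfin l).subset fun v hv => hv.2) hT)
    by_cases hvT : v ∈ T
    · exact Or.inr hvT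
    · exact Or.inl ⟨hvT, hv.2⟩
  have g0 : g i₀ ≤ wt (fun v : HeightOneSpectrum (𝓞 K) => v.valuation K t < 1) + W := by
    refine (hgT i₀).trans (add_le_add (wt_mono (fin_zero t0) fun v hv => ?_) le_rfl)
    rw [hx, ← ha] at hv
    exact (k1 v hv.1 t).1 hv.2
  have g1 : g i₁ ≤ wt (fun v : HeightOneSpectrum (𝓞 K) => v.valuation K (t - 1) < 1) + W := by
    refine (hgT i₁).trans (add_le_add (wt_mono (fin_zero (sub_ne_zero.2 t1)) fun v hv => ?_)
      le_rfl)
    rw [hx, ← hb] at hv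
    exact (k1 v hv.1 t).2.1 hv.2
  have g2 : g i₂ ≤ wt (fun v : HeightOneSpectrum (𝓞 K) => 1 < v.valuation K t) + W := by
    refine (hgT i₂).trans (add_le_add (wt_mono (fin_pole t) fun v hv => ?_) le_rfl)
    rw [hx, ← hc] at hv
    exact (k1 v hv.1 t).2.2 hv.2
  have g3 : ∀ l, l ≠ i₀ → l ≠ i₁ → l ≠ i₂ → g l ≤ logHeight₁ t + (W + C₁) := by
    intro l e0 e1 e2
    have h3 := (k2 l e0 e1 e2 t ht.2).2
    rw [← hx] at h3
    have h4 := hgT l
    linarith
  have hsum : ∑ l, g l ≤ wt (Nr t) + (q - 3) * logHeight₁ t + q * (W + C₁) := by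
    have e1 := Finset.add_sum_erase (Finset.univ : Finset (Fin q)) g (Finset.mem_univ i₀)
    have m1 : i₁ ∈ (Finset.univ : Finset (Fin q)).erase i₀ :=
      Finset.mem_erase.2 ⟨h01.symm, Finset.mem_univ _⟩
    have e2 := Finset.add_sum_erase _ g m1
    have m2 : i₂ ∈ ((Finset.univ : Finset (Fin q)).erase i₀).erase i₁ :=
      Finset.mem_erase.2 ⟨h12.symm, Finset.mem_erase.2 ⟨h02.symm, Finset.mem_univ _⟩⟩
    have e3 := Finset.add_sum_erase _ g m2
    have e4 : ∑ l ∈ ((((Finset.univ : Finset (Fin q)).erase i₀).erase i₁).erase i₂), g l ≤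
        ((((Finset.univ : Finset (Fin q)).erase i₀).erase i₁).erase i₂).card •
          (logHeight₁ t + (W + C₁)) := by
      refine Finset.sum_le_card_nsmul _ _ _ fun l hl => ?_
      rw [Finset.mem_erase, Finset.mem_erase, Finset.mem_erase] at hl
      exact g3 l hl.2.2.1 hl.2.1 hl.1
    have e5 : (((((Finset.univ : Finset (Fin q)).erase i₀).erase i₁).erase i₂).card : ℝ) =
        q - 3 := by
      have c1 := Finset.card_erase_add_one m2
      have c2 := Finset.card_erase_add_one m1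
      have c3 := Finset.card_erase_add_one (Finset.mem_univ i₀)
      rw [Finset.card_univ, Fintype.card_fin] at c3
      have c4 : ((((Finset.univ : Finset (Fin q)).erase i₀).erase i₁).erase i₂).card + 3 = q := by
        omega
      have c5 : (((((((Finset.univ : Finset (Fin q)).erase i₀).erase i₁).erase i₂).card + 3 : ℕ))
          : ℝ) = (q : ℝ) := by
        exact_mod_cast c4
      push_cast at c5
      linarith
    rw [nsmul_eq_mul, e5] at e4
    have e6 := three_nr t0 t1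
    have e7 : (0 : ℝ) ≤ W + C₁ := by linarith
    nlinarith
  have h2 : ∑ l, wt (fun v => v ∉ S ∧ Meet (α l) x v) = ∑ l, g l :=
    Finset.sum_congr rfl fun l _ => (hg l).symm
  rw [h2] at h1
  have h3 : ((q : ℝ) - 2 - ε) * height x * d ≤ ((∑ l, g l) / d + C₃) * d :=
    mul_le_mul_of_nonneg_right h1 hd0.le
  have e1 : height x * d = logHeight x := by
    unfold height
    rw [← hd]
    field_simp
  have e2 : ((∑ l, g l) / d + C₃) * d = (∑ l, g l) + d * C₃ := by
    field_simp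
  rw [mul_assoc, e1, e2] at h3
  have h4 := hC₂ x
  rw [hx, cr_pt hac hab hbc t, ← hx] at h4
  have h5 : logHeight₁ t - |C₂| ≤ logHeight x := by
    have := le_abs_self C₂
    linarith
  have h6 : ((q : ℝ) - 2 - ε) * (logHeight₁ t - |C₂|) ≤ ((q : ℝ) - 2 - ε) * logHeight x :=
    mul_le_mul_of_nonneg_left h5 (by linarith)
  have h7 : d * C₃ ≤ d * |C₃| := mul_le_mul_of_nonneg_left (le_abs_self C₃) hd0.le
  have h8 : ((q : ℝ) - 2 - ε) * |C₂| ≤ (q - 2) * |C₂| := by
    have := abs_nonneg C₂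
    nlinarith
  rw [hR]
  nlinarith

/-! ### from the three point inequality to all points -/

theorem allPoints_of_ineq (h : Ineq (Set.univ : Set K)) : AllPoints K := by
  classical
  refine (Pool.Agent.Results.MP_4d5ce1_nt.ThinSetsSuffice.result K 0).2.1 ?_
  obtain ⟨d, hd⟩ : ∃ d : ℝ, d = (Module.finrank ℚ K : ℝ) := ⟨_, rfl⟩
  have hd0 : 0 < d := by rw [hd]; exact_mod_cast Module.finrank_pos
  -- the height of `y = 2 t - 1`
  obtain ⟨C₁, hC₁⟩ := poly_height_le (K := K) (m := 1) (P := Polynomial.C 2 * X -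
    Polynomial.C 1) (by
      rw [natDegree_sub_C]
      exact (natDegree_C_mul_le _ _).trans natDegree_X_le)
  intro ε hε
  rcases le_or_gt ε 1 with hε1 | hε1
  swap
  · refine ⟨0, fun x _ _ _ => ?_⟩
    have h1 : 0 ≤ height x := by
      unfold height
      exact div_nonneg (Height.logHeight_nonneg x) (Nat.cast_nonneg _)
    have h2 := counting_nonneg (∅ : Finset (HeightOneSpectrum (𝓞 K)))
      (![![1, 1], ![-1, 1], ![1, 0]] : Fin 3 → Fin 2 → K) x
    push_cast
    nlinarith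
  obtain ⟨C₂, hC₂⟩ := h ε hε
  obtain ⟨W, hW⟩ : ∃ W : ℝ, W = wt (fun v : HeightOneSpectrum (𝓞 K) =>
    v.valuation K 2 < 1) := ⟨_, rfl⟩
  refine ⟨(|C₁| + W + |C₂|) / d, fun x hx hx0 hne => ?_⟩
  obtain ⟨u, hu⟩ := hx
  have hT : (Chebyshev.T K ((2 : ℤ) ^ 0)).eval u = u := by
    rw [pow_zero, Chebyshev.T_one, eval_X]
  rw [hT] at hu
  subst hu
  obtain ⟨t, ht⟩ : ∃ t : K, t = (u + 1) / 2 := ⟨_, rfl⟩
  have hut : u = 2 * t - 1 := by rw [ht]; field_simp; ring
  have hn0 : u - 1 ≠ 0 := by simpa using hne 0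
  have hn1 : u + 1 ≠ 0 := by simpa using hne 1
  have t0 : t ≠ 0 := by
    rw [ht]
    exact div_ne_zero hn1 two_ne_zero
  have t1 : t ≠ 1 := by
    intro h1
    apply hn0
    rw [hut, h1]
    norm_num
  have h1 := hC₂ t (Set.mem_univ t) t0 t1
  rw [counting_eq _ hne, height_affine, ← hd]
  have m0 : ∀ v : HeightOneSpectrum (𝓞 K),
      Meet ((![![1, 1], ![-1, 1], ![1, 0]] : Fin 3 → Fin 2 → K) 0) ![u, 1] v ↔
        v.valuation K (u - 1) < max (v.valuation K u) 1 := by
    intro v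
    unfold Meet
    simp
  have m1 : ∀ v : HeightOneSpectrum (𝓞 K),
      Meet ((![![1, 1], ![-1, 1], ![1, 0]] : Fin 3 → Fin 2 → K) 1) ![u, 1] v ↔
        v.valuation K (u + 1) < max (v.valuation K u) 1 := by
    intro v
    unfold Meet
    simp
  have m2 : ∀ v : HeightOneSpectrum (𝓞 K),
      Meet ((![![1, 1], ![-1, 1], ![1, 0]] : Fin 3 → Fin 2 → K) 2) ![u, 1] v ↔
        1 < v.valuation K u := by
    intro v
    unfold Meet
    simp
  have e : ∀ l : Fin 3, wt (fun v : HeightOneSpectrum (𝓞 K) =>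
      v ∉ (∅ : Finset (HeightOneSpectrum (𝓞 K))) ∧
      Meet ((![![1, 1], ![-1, 1], ![1, 0]] : Fin 3 → Fin 2 → K) l) ![u, 1] v) =
      wt (fun v : HeightOneSpectrum (𝓞 K) =>
        Meet ((![![1, 1], ![-1, 1], ![1, 0]] : Fin 3 → Fin 2 → K) l) ![u, 1] v) := by
    intro l
    congr 1
    funext v
    exact propext ⟨fun h => h.2, fun h => ⟨Finset.notMem_empty v, h⟩⟩
  simp only [e]
  rw [Fin.sum_univ_three]
  have f := fun l : Fin 3 => meet_fin (hne l)
  have f2 : {v : HeightOneSpectrum (𝓞 K) | v.valuation K (2 : K) < 1}.Finite :=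
    fin_zero two_ne_zero
  have hsum : wt (Nr t) ≤
      wt (fun v : HeightOneSpectrum (𝓞 K) =>
        Meet ((![![1, 1], ![-1, 1], ![1, 0]] : Fin 3 → Fin 2 → K) 0) ![u, 1] v) +
      wt (fun v : HeightOneSpectrum (𝓞 K) =>
        Meet ((![![1, 1], ![-1, 1], ![1, 0]] : Fin 3 → Fin 2 → K) 1) ![u, 1] v) +
      wt (fun v : HeightOneSpectrum (𝓞 K) =>
        Meet ((![![1, 1], ![-1, 1], ![1, 0]] : Fin 3 → Fin 2 → K) 2) ![u, 1] v) + W := by
    rw [hW]
    refine le_trans (wt_mono (Q := fun v : HeightOneSpectrum (𝓞 K) =>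
      ((Meet ((![![1, 1], ![-1, 1], ![1, 0]] : Fin 3 → Fin 2 → K) 0) ![u, 1] v ∨
      Meet ((![![1, 1], ![-1, 1], ![1, 0]] : Fin 3 → Fin 2 → K) 1) ![u, 1] v) ∨
      Meet ((![![1, 1], ![-1, 1], ![1, 0]] : Fin 3 → Fin 2 → K) 2) ![u, 1] v) ∨
      v.valuation K (2 : K) < 1) ((((f 0).union (f 1)).union (f 2)).union f2)
      fun v hv => ?_) ?_
    · by_cases h2 : v.valuation K (2 : K) < 1
      · exact Or.inr h2
      · left
        have h3 : v.valuation K (2 : K) = 1 := by
          refine le_antisymm ?_ (not_lt.1 h2)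
          have e2 : (2 : K) = 1 + 1 := by norm_num
          rw [e2]
          exact (Valuation.map_add _ _ _).trans (max_le (by rw [map_one]) (by rw [map_one]))
        have ht1 : v.valuation K t = v.valuation K (u + 1) := by
          rw [ht, map_div₀, h3, div_one]
        have ht2 : v.valuation K (t - 1) = v.valuation K (u - 1) := by
          have e2 : t - 1 = (u - 1) / 2 := by
            rw [ht]
            field_simp
            ring
          rw [e2, map_div₀, h3, div_one]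
        rw [m0, m1, m2]
        rcases hv with h4 | h4 | h4
        · rw [ht1] at h4
          exact Or.inl (Or.inr (h4.trans_le (le_max_right _ _)))
        · rw [ht1] at h4
          right
          by_contra h5
          rw [not_lt] at h5
          have h6 : v.valuation K (u + 1) ≤ 1 :=
            (Valuation.map_add _ _ _).trans (max_le h5 (by rw [map_one]))
          exact absurd h4 (not_lt.2 h6)
        · rw [ht2] at h4
          exact Or.inl (Or.inl (h4.trans_le (le_max_right _ _)))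
    · refine (wt_or_le (((f 0).union (f 1)).union (f 2)) f2).trans (add_le_add ?_ le_rfl)
      refine (wt_or_le ((f 0).union (f 1)) (f 2)).trans (add_le_add ?_ le_rfl)
      exact wt_or_le (f 0) (f 1)
  have h2 := hC₁ t
  rw [eval_sub, eval_mul, eval_C, eval_X, eval_C, ← hut] at h2
  have h3 := le_abs_self C₁
  have h4 := le_abs_self C₂
  have h5 : (1 - ε) * logHeight₁ u ≤ (1 - ε) * (logHeight₁ t + |C₁|) := by
    refine mul_le_mul_of_nonneg_left ?_ (by linarith)
    push_cast at h2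
    linarith
  have h6 : (1 - ε) * |C₁| ≤ |C₁| := by
    have := abs_nonneg C₁
    nlinarith
  rw [← mul_div_assoc, ← add_div]
  refine div_le_div_of_nonneg_right ?_ hd0.le
  have e3 : (((3 : ℕ) : ℝ) - 2 - ε) = 1 - ε := by push_cast; ring
  rw [e3]
  linarith

end Pool.Agent.H420.LC
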