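import Pool.Agent.H420.LC.Places

/-!
# The three point inequality follows from the inequality at points close to `0`
-/

set_option autoImplicit false

namespace Pool.Agent.H420.LC

open NumberField IsDedekindDomain Height Polynomial Pool.Agent.Q290.NF

variable {K : Type} [Field K] [NumberField K]

/-- the points close to `0` at all the places of `W` -/
def Ball (W : Finset (AbsoluteValue K ℝ)) (δ : ℝ) : Set K := {t | ∀ w ∈ W, w t < δ}

omit [NumberField K] in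
theorem Ball.mono {W : Finset (AbsoluteValue K ℝ)} {δ δ' : ℝ} (h : δ ≤ δ') :
    Ball W δ ⊆ Ball W δ' := fun _ ht w hw => (ht w hw).trans_le h

omit [NumberField K] in
theorem Cont0.ball {g : K → K} (hg : Cont0 g) (W : Finset (AbsoluteValue K ℝ)) {δ : ℝ}
    (hδ : 0 < δ) : ∃ δ' : ℝ, 0 < δ' ∧ ∀ t ∈ Ball W δ', g t ∈ Ball W δ := by
  classical
  induction W using Finset.induction_on with
  | empty => exact ⟨1, one_pos, fun t _ w hw => absurd hw (Finset.notMem_empty w)⟩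
  | insert w W _ ih =>
    obtain ⟨δ₁, h1, h2⟩ := ih
    obtain ⟨δ₂, h3, h4⟩ := hg w δ hδ
    refine ⟨min δ₁ δ₂, lt_min h1 h3, fun t ht w' hw' => ?_⟩
    rcases Finset.mem_insert.1 hw' with rfl | h5
    · exact h4 t ((ht w' hw').trans_le (min_le_right _ _))
    · exact h2 t (fun w'' hw'' =>
        (ht w'' (Finset.mem_insert_of_mem hw'')).trans_le (min_le_left _ _)) w' h5

theorem Ineq.add_finite {X Z : Set K} (hZ : Z.Finite) (h : Ineq (X \ Z)) : Ineq X := by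
  obtain ⟨B, hB⟩ := (hZ.image logHeight₁).bddAbove
  refine (h.union (ineq_bounded B)).mono fun t ht => ?_
  by_cases hz : t ∈ Z
  · exact Or.inr (hB ⟨t, hz, rfl⟩)
  · exact Or.inl ⟨ht, hz⟩

/-- transfer, with finitely many exceptions -/
theorem Ineq.transfer' {X Y Z : Set K} (h : Ineq Y) {g : K → K} (hg : Good g) (hZ : Z.Finite)
    (hXY : ∀ t ∈ X, t ≠ 0 → t ≠ 1 → t ∉ Z → g t ∈ Y) : Ineq X := by
  have h1 : Ineq (X \ (Z ∪ {0, 1})) := by
    refine h.transfer hg fun t ht => hXY t ht.1 ?_ ?_ ?_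
    · rintro rfl
      exact ht.2 (Or.inr (by simp))
    · rintro rfl
      exact ht.2 (Or.inr (by simp))
    · exact fun hz => ht.2 (Or.inl hz)
  exact h1.add_finite (hZ.union (by simp))

/-- **localisation** -/
theorem ineq_of_ball (W : Finset (AbsoluteValue K ℝ)) (hW : ∀ w ∈ W, Reach w) {δ : ℝ}
    (hδ : 0 < δ) (h : Ineq (Ball W δ)) : Ineq (Set.univ : Set K) := by
  classical
  induction W using Finset.induction_on generalizing δ with
  | empty =>
    refine h.mono fun t _ w hw => absurd hw (Finset.notMem_empty w)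
  | insert w W _ ih =>
    obtain ⟨I, s, g, hs, hg, hcov⟩ := hW w (Finset.mem_insert_self w W) δ hδ
    -- a common radius
    obtain ⟨δ', h1, h2⟩ : ∃ δ' : ℝ, 0 < δ' ∧ ∀ i ∈ s, ∀ t ∈ Ball W δ', g i t ∈ Ball W δ := by
      clear hcov
      induction s, hs using Set.Finite.induction_on with
      | empty => exact ⟨1, one_pos, fun i hi => absurd hi (Set.notMem_empty i)⟩
      | @insert a s _ _ ihs =>
        obtain ⟨δ₁, k1, k2⟩ := ihs fun i hi => hg i (Set.mem_insert_of_mem a hi)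
        obtain ⟨δ₂, k3, k4⟩ := (hg a (Set.mem_insert a s)).2.ball W hδ
        refine ⟨min δ₁ δ₂, lt_min k1 k3, fun i hi t ht => ?_⟩
        rcases Set.mem_insert_iff.1 hi with rfl | hi
        · exact k4 t (Ball.mono (min_le_right _ _) ht)
        · exact k2 i hi t (Ball.mono (min_le_left _ _) ht)
    refine ih (fun w' hw' => hW w' (Finset.mem_insert_of_mem hw')) h1 ?_
    have h3 : Ineq (⋃ i ∈ s, {t : K | g i t ∈ Ball (insert w W) δ}) :=
      ineq_biUnion hs _ fun i hi => h.transfer (hg i hi).1 fun t ht => ht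
    have h4 : Ineq (Ball W δ' \ {0, 1}) := by
      refine h3.mono fun t ht => ?_
      have t0 : t ≠ 0 := by
        rintro rfl
        exact ht.2 (by simp)
      have t1 : t ≠ 1 := by
        rintro rfl
        exact ht.2 (by simp)
      obtain ⟨i, hi, h5⟩ := hcov t t0 t1
      refine Set.mem_iUnion₂.2 ⟨i, hi, fun w' hw' => ?_⟩
      rcases Finset.mem_insert.1 hw' with rfl | h6
      · exact h5
      · exact h2 i hi t ht.1 w' h6
    exact h4.add_finite (by simp)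

/-- values of a Belyi map -/
theorem ineq_of_values (W : Finset (AbsoluteValue K ℝ)) (hW : ∀ w ∈ W, Reach w) {δ δ₁ : ℝ}
    (hδ : 0 < δ) (hδ₁ : 0 < δ₁) {f : K → K} (hf : BelFun f)
    (h : Ineq {t : K | t ∈ Ball W δ ∧ ∃ u ∈ Ball W δ₁, t = f u}) :
    Ineq (Set.univ : Set K) := by
  obtain ⟨δ₂, h1, h2⟩ := hf.cont0.ball W hδ
  refine ineq_of_ball W hW (lt_min hδ₁ h1) (h.transfer hf.good fun t ht => ?_)
  exact ⟨h2 t (Ball.mono (min_le_right _ _) ht), t, Ball.mono (min_le_left _ _) ht, rfl⟩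

/-! ### almost cubes -/

/-- the relation `t = a y³`, `1 - t = (1 - a) z³` -/
def CubeRel (a t : K) : Prop := ∃ y z : K, t = a * y ^ 3 ∧ 1 - t = (1 - a) * z ^ 3

omit [NumberField K] in
theorem CubeRel.refl (a : K) : CubeRel a a := ⟨1, 1, by ring, by ring⟩

omit [NumberField K] in
theorem CubeRel.trans {a b c : K} (h : CubeRel a b) (h' : CubeRel b c) : CubeRel a c := by
  obtain ⟨y, z, h1, h2⟩ := h
  obtain ⟨y', z', h3, h4⟩ := h'
  exact ⟨y * y', z * z', by rw [h3, h1]; ring, by rw [h4, h2]; ring⟩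

omit [NumberField K] in
theorem cubeRel_ph {a : K} (h : 2 * a - 1 ≠ 0) : CubeRel a (ph a) := by
  refine ⟨(2 - a) / (2 * a - 1), -(a + 1) / (2 * a - 1), ?_, ?_⟩
  · unfold ph
    rw [div_pow]
    ring
  · have h3 : (2 * a - 1) ^ 3 ≠ 0 := pow_ne_zero 3 h
    unfold ph
    rw [div_pow, ← mul_div_assoc, eq_div_iff h3, sub_mul, div_mul_cancel₀ _ h3]
    ring

theorem Good.finite_fiber {g : K → K} (hg : Good g) (c : K) :
    {t : K | t ≠ 0 ∧ t ≠ 1 ∧ g t = c}.Finite := by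
  obtain ⟨n, C, Z, hg⟩ := hg
  have hn : (1 : ℝ) ≤ n := by exact_mod_cast hg.pos
  have hfin : {t : K | logHeight₁ t ≤ logHeight₁ c + C}.Finite :=
    NumberField.finite_setOfPred_logHeight₁_le K _
  refine (hg.fin.union hfin).subset fun t ht => ?_
  obtain ⟨h0, h1, h2⟩ := ht
  by_cases hz : t ∈ Z
  · exact Or.inl hz
  · refine Or.inr ?_
    have h3 := hg.ge t hz h0 h1
    rw [h2] at h3
    have h4 := zero_le_logHeight₁ t
    show logHeight₁ t ≤ _
    nlinarith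

theorem ph_height_ge : ∃ C : ℝ, 0 ≤ C ∧ ∀ a : K, 4 * logHeight₁ a ≤ logHeight₁ (ph a) + C := by
  have h := bel_phi (K := K)
  have hF : (X * (2 - X) ^ 3 : K[X]).natDegree ≤ 4 := by
    rw [← h.degree]; exact le_max_left _ _
  have hG : ((2 * X - 1) ^ 3 : K[X]).natDegree ≤ 4 := by
    rw [← h.degree]; exact le_max_right _ _
  have hd : (X * (2 - X) ^ 3 : K[X]).natDegree = 4 ∨ ((2 * X - 1) ^ 3 : K[X]).natDegree = 4 := by
    have h0 := h.degree
    rcases max_choice (X * (2 - X) ^ 3 : K[X]).natDegree ((2 * X - 1) ^ 3 : K[X]).natDegree with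
      h1 | h1
    · left; rw [← h1, h0]
    · right; rw [← h1, h0]
  obtain ⟨c, hC⟩ := rat_height_ge h.coprime h.pos hF hG hd
  refine ⟨|c|, abs_nonneg c, fun a => ?_⟩
  have h1 := hC a
  have e2 : ((2 : K[X])).eval a = 2 := by
    have e2 : (2 : K[X]) = C 2 := rfl
    rw [e2, eval_C]
  have h2 : (X * (2 - X) ^ 3 : K[X]).eval a / ((2 * X - 1) ^ 3 : K[X]).eval a = ph a := by
    rw [eval_mul, eval_X, eval_pow, eval_sub, e2, eval_X, eval_pow, eval_sub, eval_mul, e2,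
      eval_X, eval_one]
    rfl
  rw [h2] at h1
  have h3 := le_abs_self c
  push_cast at h1
  linarith

theorem ph_iter_ge (k : ℕ) : ∃ C : ℝ, 0 ≤ C ∧
    ∀ a : K, (4 : ℝ) ^ k * logHeight₁ a ≤ logHeight₁ (ph^[k] a) + C := by
  induction k with
  | zero => exact ⟨0, le_rfl, fun a => by simp⟩
  | succ k ih =>
    obtain ⟨C, h0, hC⟩ := ih
    obtain ⟨D, h1, hD⟩ := ph_height_ge (K := K)
    refine ⟨4 * C + D, by positivity, fun a => ?_⟩
    rw [Function.iterate_succ_apply', pow_succ]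
    have h2 := hC a
    have h3 := hD (ph^[k] a)
    linarith

theorem nice_iter {f : K → K} (hf : Nice f) (k : ℕ) : Nice (fun t => ph^[k] (f t)) := by
  induction k with
  | zero => exact hf
  | succ k ih =>
    have h1 := (belFun_ph (K := K)).nice.comp ih
    have e : (fun t => ph^[k + 1] (f t)) = fun t => ph (ph^[k] (f t)) := by
      funext t
      rw [Function.iterate_succ_apply']
    rw [e]
    exact h1

theorem cube_iter {f : K → K} (hf : Nice f) (k : ℕ) : ∃ Z : Set K, Z.Finite ∧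
    ∀ t, t ∉ Z → t ≠ 0 → t ≠ 1 → CubeRel (f t) (ph^[k] (f t)) := by
  induction k with
  | zero => exact ⟨∅, Set.finite_empty, fun t _ _ _ => CubeRel.refl _⟩
  | succ k ih =>
    obtain ⟨Z, hZ, h1⟩ := ih
    refine ⟨Z ∪ {t : K | t ≠ 0 ∧ t ≠ 1 ∧ ph^[k] (f t) = 1 / 2},
      hZ.union ((nice_iter hf k).1.finite_fiber (1 / 2)), fun t ht t0 t1 => ?_⟩
    rw [Set.mem_union, not_or] at ht
    rw [Function.iterate_succ_apply']
    refine (h1 t ht.1 t0 t1).trans (cubeRel_ph fun h2 => ht.2 ⟨t0, t1, ?_⟩)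
    linear_combination h2 / 2

/-- almost cubes -/
theorem ineq_of_cubes (W : Finset (AbsoluteValue K ℝ)) (hW : ∀ w ∈ W, Reach w) {δ δ₁ η : ℝ}
    (hδ : 0 < δ) (hδ₁ : 0 < δ₁) (hη : 0 < η) {f : K → K} (hf : BelFun f)
    (h : Ineq {t : K | t ∈ Ball W δ ∧ ∃ u ∈ Ball W δ₁, CubeRel (f u) t ∧
      logHeight₁ u ≤ η * logHeight₁ t ∧ logHeight₁ (f u) ≤ η * logHeight₁ t}) :
    Ineq (Set.univ : Set K) := by
  obtain ⟨n, D, Z₀, hg⟩ := hf.good
  have hn : (1 : ℝ) ≤ n := by exact_mod_cast hg.pos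
  -- the number of iterations
  obtain ⟨k, hk⟩ := pow_unbounded_of_one_lt (2 / η) (by norm_num : (1 : ℝ) < 4)
  obtain ⟨C, hC0, hC⟩ := ph_iter_ge (K := K) k
  obtain ⟨Z, hZ, hcube⟩ := cube_iter hf.nice k
  have hni := nice_iter hf.nice k
  obtain ⟨δ₂, h1, h2⟩ := hni.2.ball W hδ
  have h4k : (0 : ℝ) < 4 ^ k := by positivity
  have hD0 := hg.nonneg
  -- the bound below which the height is too small
  obtain ⟨B, hB⟩ : ∃ B : ℝ, B = C + 4 ^ k * D := ⟨_, rfl⟩
  have hη2 : 2 ≤ η * 4 ^ k := by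
    rw [div_lt_iff₀ hη] at hk
    linarith
  have key := h.union (ineq_bounded (K := K) B)
  refine ineq_of_ball W hW (lt_min hδ₁ h1) (key.transfer' hni.1 (hZ.union hg.fin)
    fun t ht t0 t1 hz => ?_)
  rw [Set.mem_union, not_or] at hz
  by_cases hs : logHeight₁ (ph^[k] (f t)) ≤ B
  · exact Or.inr hs
  · left
    rw [not_le] at hs
    have a1 := hC (f t)
    have a2 := hg.ge t hz.2 t0 t1
    have a3 := zero_le_logHeight₁ t
    have a4 := zero_le_logHeight₁ (f t)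
    have a5 : logHeight₁ t ≤ logHeight₁ (f t) + D := by nlinarith
    have a6 : (0 : ℝ) ≤ 4 ^ k * D := by positivity
    refine ⟨h2 t (Ball.mono (min_le_right _ _) ht), t, Ball.mono (min_le_left _ _) ht,
      hcube t hz.1 t0 t1, ?_, ?_⟩
    · -- `4 ^ k h(t) ≤ h(φ) + C + 4 ^ k D ≤ 2 h(φ) ≤ η 4 ^ k h(φ)`
      have b1 : (4 : ℝ) ^ k * logHeight₁ t ≤ 4 ^ k * (η * logHeight₁ (ph^[k] (f t))) := by
        have b2 : (4 : ℝ) ^ k * logHeight₁ t ≤ 4 ^ k * (logHeight₁ (f t) + D) :=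
          mul_le_mul_of_nonneg_left a5 h4k.le
        have b3 : 2 * logHeight₁ (ph^[k] (f t)) ≤ (η * 4 ^ k) * logHeight₁ (ph^[k] (f t)) :=
          mul_le_mul_of_nonneg_right hη2 (zero_le_logHeight₁ _)
        nlinarith
      exact le_of_mul_le_mul_left b1 h4k
    · have b1 : (4 : ℝ) ^ k * logHeight₁ (f t) ≤ 4 ^ k * (η * logHeight₁ (ph^[k] (f t))) := by
        have b3 : 2 * logHeight₁ (ph^[k] (f t)) ≤ (η * 4 ^ k) * logHeight₁ (ph^[k] (f t)) :=
          mul_le_mul_of_nonneg_right hη2 (zero_le_logHeight₁ _)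
        nlinarith
      exact le_of_mul_le_mul_left b1 h4k

theorem nice_iter' (k : ℕ) : Nice (fun t : K => ph^[k] t) := by
  have h1 : Nice (fun t : K => t) := by
    have := (belFun_pow (K := K) le_rfl).nice
    simpa using this
  exact nice_iter h1 k

/-- values of a Belyi map at almost cubes -/
theorem ineq_of_both (W : Finset (AbsoluteValue K ℝ)) (hW : ∀ w ∈ W, Reach w) {δ δ₁ η : ℝ}
    (hδ : 0 < δ) (hδ₁ : 0 < δ₁) (hη : 0 < η) {f : K → K} (hf : BelFun f)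
    (h : Ineq {t : K | t ∈ Ball W δ ∧ ∃ u ∈ Ball W δ₁, t = f u ∧ ∃ e, CubeRel e u ∧
      logHeight₁ e ≤ η * logHeight₁ t}) :
    Ineq (Set.univ : Set K) := by
  obtain ⟨n, D, Z₀, hg⟩ := hf.good
  have hn : (1 : ℝ) ≤ n := by exact_mod_cast hg.pos
  -- the number of iterations
  obtain ⟨k, hk⟩ := pow_unbounded_of_one_lt (2 / η) (by norm_num : (1 : ℝ) < 4)
  obtain ⟨C, hC0, hC⟩ := ph_iter_ge (K := K) k
  have h1' : Nice (fun t : K => t) := by
    have := (belFun_pow (K := K) le_rfl).nice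
    simpa using this
  obtain ⟨Z, hZ, hcube⟩ := cube_iter h1' k
  have hni := nice_iter' (K := K) k
  have hfn := hf.nice.comp hni
  obtain ⟨δ₂, h1, h2⟩ := hfn.2.ball W hδ
  obtain ⟨δ₃, h3, h4⟩ := hni.2.ball W hδ₁
  have h4k : (0 : ℝ) < 4 ^ k := by positivity
  have hD0 := hg.nonneg
  -- the bound below which the height is too small
  obtain ⟨B, hB⟩ : ∃ B : ℝ, B = C + D := ⟨_, rfl⟩
  have hη2 : 2 ≤ η * 4 ^ k := by
    rw [div_lt_iff₀ hη] at hk
    linarith
  -- the exceptional set of `f`, pulled back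
  have hZ₀ : {t : K | t ≠ 0 ∧ t ≠ 1 ∧ ph^[k] t ∈ Z₀ ∪ {0, 1}}.Finite := by
    have e1 : {t : K | t ≠ 0 ∧ t ≠ 1 ∧ ph^[k] t ∈ Z₀ ∪ {0, 1}} ⊆
        ⋃ c ∈ Z₀ ∪ {0, 1}, {t : K | t ≠ 0 ∧ t ≠ 1 ∧ ph^[k] t = c} := by
      rintro t ⟨a1, a2, a3⟩
      exact Set.mem_iUnion₂.2 ⟨_, a3, a1, a2, rfl⟩
    refine (Set.Finite.biUnion (hg.fin.union (by simp)) fun c _ => ?_).subset e1
    exact hni.1.finite_fiber c
  have key := h.union (ineq_bounded (K := K) B)
  refine ineq_of_ball W hW (lt_min h1 h3) (key.transfer' hfn.1 (hZ.union hZ₀)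
    fun t ht t0 t1 hz => ?_)
  rw [Set.mem_union, not_or] at hz
  have hu : ph^[k] t ∉ Z₀ ∧ ph^[k] t ≠ 0 ∧ ph^[k] t ≠ 1 := by
    refine ⟨fun h5 => hz.2 ⟨t0, t1, Or.inl h5⟩, fun h5 => hz.2 ⟨t0, t1, Or.inr ?_⟩,
      fun h5 => hz.2 ⟨t0, t1, Or.inr ?_⟩⟩
    · rw [h5]; simp
    · rw [h5]; simp
  by_cases hs : logHeight₁ (f (ph^[k] t)) ≤ B
  · exact Or.inr hs
  · left
    rw [not_le] at hs
    have a1 := hC t
    have a2 := hg.ge _ hu.1 hu.2.1 hu.2.2
    have a3 := zero_le_logHeight₁ t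
    have a4 := zero_le_logHeight₁ (ph^[k] t)
    have a5 : logHeight₁ (ph^[k] t) ≤ logHeight₁ (f (ph^[k] t)) + D := by nlinarith
    refine ⟨h2 t (Ball.mono (min_le_left _ _) ht), ph^[k] t,
      h4 t (Ball.mono (min_le_right _ _) ht), rfl, t, hcube t hz.1 t0 t1, ?_⟩
    have b1 : (4 : ℝ) ^ k * logHeight₁ t ≤ 4 ^ k * (η * logHeight₁ (f (ph^[k] t))) := by
      have b3 : 2 * logHeight₁ (f (ph^[k] t)) ≤ (η * 4 ^ k) * logHeight₁ (f (ph^[k] t)) :=
        mul_le_mul_of_nonneg_right hη2 (zero_le_logHeight₁ _)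
      nlinarith
    exact le_of_mul_le_mul_left b1 h4k

end Pool.Agent.H420.LC
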