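import Pool.Agent.H420.LC.Core

/-!
# Special maps unramified outside of `0, 1, ∞`
-/

set_option autoImplicit false

namespace Pool.Agent.H420.LC

open NumberField IsDedekindDomain Height Polynomial Pool.Agent.Q290.NF

variable {K : Type} [Field K]

/-! ### continuity at `0` -/

/-- the map is continuous at `0`, with value `0`, for all absolute values -/
def Cont0 (g : K → K) : Prop :=
  ∀ (v : AbsoluteValue K ℝ) (δ : ℝ), 0 < δ → ∃ δ' : ℝ, 0 < δ' ∧ ∀ t, v t < δ' → v (g t) < δ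

theorem Cont0.comp {f g : K → K} (hf : Cont0 f) (hg : Cont0 g) : Cont0 (fun t => f (g t)) := by
  intro v δ hδ
  obtain ⟨δ₁, h1, h2⟩ := hf v δ hδ
  obtain ⟨δ₂, h3, h4⟩ := hg v δ₁ h1
  exact ⟨δ₂, h3, fun t ht => h2 _ (h4 t ht)⟩

theorem poly_bound (v : AbsoluteValue K ℝ) (P : K[X]) :
    ∃ B : ℝ, 0 ≤ B ∧ ∀ t, v t ≤ 1 → v (P.eval t) ≤ B := by
  refine ⟨∑ i ∈ Finset.range (P.natDegree + 1), v (P.coeff i),
    Finset.sum_nonneg fun i _ => v.nonneg _, fun t ht => ?_⟩
  rw [eval_eq_sum_range]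
  refine (v.sum_le _ _).trans (Finset.sum_le_sum fun i _ => ?_)
  rw [map_mul, map_pow]
  exact mul_le_of_le_one_right (v.nonneg _) (pow_le_one₀ (v.nonneg _) ht)

theorem cont0_rat {F G : K[X]} (hF : F.eval 0 = 0) (hG : G.eval 0 ≠ 0) :
    Cont0 (fun t => F.eval t / G.eval t) := by
  intro v δ hδ
  have hF' : X ∣ F := by
    rw [X_dvd_iff, coeff_zero_eq_eval_zero]
    exact hF
  obtain ⟨F₁, hF₁⟩ := hF'
  have hG' : X ∣ (G - C (G.eval 0)) := by
    rw [X_dvd_iff]
    simp [coeff_zero_eq_eval_zero]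
  obtain ⟨G₁, hG₁⟩ := hG'
  obtain ⟨B, hB0, hB⟩ := poly_bound v F₁
  obtain ⟨D, hD0, hD⟩ := poly_bound v G₁
  have hg : 0 < v (G.eval 0) := v.pos hG
  refine ⟨min 1 (min (v (G.eval 0) / (2 * (D + 1))) (δ * v (G.eval 0) / (2 * (B + 1)))), ?_,
    fun t ht => ?_⟩
  · positivity
  · have h1 : v t < 1 := ht.trans_le (min_le_left _ _)
    have h2 : v t < v (G.eval 0) / (2 * (D + 1)) :=
      ht.trans_le ((min_le_right _ _).trans (min_le_left _ _))
    have h3 : v t < δ * v (G.eval 0) / (2 * (B + 1)) :=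
      ht.trans_le ((min_le_right _ _).trans (min_le_right _ _))
    rw [lt_div_iff₀ (by positivity)] at h2 h3
    have ht0 := v.nonneg t
    have eF : v (F.eval t) ≤ v t * B := by
      rw [hF₁, eval_mul, eval_X, map_mul]
      exact mul_le_mul_of_nonneg_left (hB t h1.le) ht0
    have eG : v (G.eval 0) / 2 < v (G.eval t) := by
      have e1 : G.eval t = G.eval 0 + t * G₁.eval t := by
        have := congrArg (eval t) hG₁
        rw [eval_sub, eval_C, eval_mul, eval_X] at this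
        linear_combination this
      have e2 : v (G.eval 0) ≤ v (G.eval t) + v (t * G₁.eval t) := by
        have : G.eval 0 = G.eval t - t * G₁.eval t := by rw [e1]; ring
        calc v (G.eval 0) = v (G.eval t - t * G₁.eval t) := by rw [← this]
          _ ≤ _ := v.sub_le_add _ _
      have e3 : v (t * G₁.eval t) ≤ v t * D := by
        rw [map_mul]
        exact mul_le_mul_of_nonneg_left (hD t h1.le) ht0
      nlinarith
    show v (F.eval t / G.eval t) < δ
    rw [map_div₀, div_lt_iff₀ (by linarith)]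
    nlinarith

theorem Bel.cont0 {F G : K[X]} {n : ℕ} (h : Bel F G n) (h0 : F.eval 0 = 0) :
    Cont0 (fun t => F.eval t / G.eval t) := by
  refine cont0_rat h0 fun h1 => ?_
  obtain ⟨a, b, hab⟩ := h.coprime
  have := congrArg (eval 0) hab
  rw [eval_add, eval_mul, eval_mul, h0, h1, mul_zero, mul_zero, add_zero, eval_one] at this
  exact zero_ne_one this

/-! ### the power maps -/

theorem bel_pow {n : ℕ} (hn : 1 ≤ n) : Bel (X ^ n : K[X]) 1 n := by
  refine ⟨hn, isCoprime_one_right, ?_, ?_⟩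
  · rw [natDegree_X_pow, natDegree_one]
    exact max_eq_left (Nat.zero_le _)
  · have hg : (∑ i ∈ Finset.range n, (X : K[X]) ^ i) * (X - 1) = X ^ n - 1 :=
      geom_sum_mul X n
    have hne : (X ^ n - 1 : K[X]) ≠ 0 := by
      have := X_pow_sub_C_ne_zero (R := K) hn 1
      rwa [C_1] at this
    refine ⟨∑ i ∈ Finset.range n, (X : K[X]) ^ i, ?_, ?_, n, ?_⟩
    · intro h0
      rw [h0, zero_mul] at hg
      exact hne hg.symm
    · refine natDegree_sum_le_of_forall_le _ _ fun i hi => ?_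
      rw [Finset.mem_range] at hi
      rw [natDegree_X_pow]
      omega
    · have e : X * (X - 1) * (∑ i ∈ Finset.range n, (X : K[X]) ^ i) = X * (X ^ n - 1) := by
        rw [← hg]; ring
      rw [e, mul_pow, mul_one]
      refine mul_dvd_mul (dvd_refl _) ?_
      exact dvd_pow_self _ (by omega)

/-! ### the map `-4 t / (1 - t)²` -/

variable [CharZero K]

theorem bel_s : Bel (C (-4) * X : K[X]) ((1 - X) ^ 2) 2 := by
  have h4 : (C (4⁻¹) : K[X]) * C 4 = 1 := by
    rw [← C_mul, inv_mul_cancel₀ (by norm_num), C_1]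
  refine ⟨by norm_num, ?_, ?_, X + 1, ?_, ?_, 2, ?_⟩
  · refine IsCoprime.pow_right ?_
    refine ⟨-C (4⁻¹), 1, ?_⟩
    have : (-C (4⁻¹) : K[X]) * (C (-4) * X) = (C (4⁻¹) * C 4) * X := by
      rw [C_neg]; ring
    rw [this, h4]
    ring
  · have h1 : ((1 - X : K[X]) ^ 2).natDegree = 2 := by
      have : (1 - X : K[X]) = -(X - C 1) := by rw [C_1]; ring
      rw [this, neg_sq, natDegree_pow, natDegree_X_sub_C]
    have h2 : (C (-4) * X : K[X]).natDegree ≤ 1 :=
      (natDegree_C_mul_le _ _).trans natDegree_X_le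
    rw [h1]
    exact max_eq_right (h2.trans (by norm_num))
  · have := X_add_C_ne_zero (R := K) 1
    rwa [C_1] at this
  · have := natDegree_X_add_C (R := K) 1
    rw [C_1] at this
    rw [this]
  · refine ⟨C (4⁻¹) * X, ?_⟩
    have h5 : (C (-4) : K[X]) = -4 := by
      rw [C_neg]
      rfl
    have h6 : (C (4⁻¹) : K[X]) * 4 = 1 := h4
    rw [h5]
    linear_combination (-(X ^ 2 * (X - 1) ^ 2 * (X + 1) ^ 2) : K[X]) * h6

/-! ### the maps `c t (1 - t) ^ b` -/

/-- the constant -/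
noncomputable def cb (K : Type) [Field K] (b : ℕ) : K := ((b : K) + 1) ^ (b + 1) / (b : K) ^ b

theorem cb_ne {b : ℕ} (hb : 1 ≤ b) : cb K b ≠ 0 := by
  unfold cb
  have h1 : (b : K) ≠ 0 := by exact_mod_cast (by omega : b ≠ 0)
  have h2 : (b : K) + 1 ≠ 0 := by exact_mod_cast (by omega : b + 1 ≠ 0)
  exact div_ne_zero (pow_ne_zero _ h2) (pow_ne_zero _ h1)

theorem bel_b {b : ℕ} (hb : 1 ≤ b) :
    Bel (C (cb K b) * (X * (1 - X) ^ b) : K[X]) 1 (b + 1) := by
  have hc := cb_ne (K := K) hb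
  have h1 : (b : K) ≠ 0 := by exact_mod_cast (by omega : b ≠ 0)
  have h2 : (b : K) + 1 ≠ 0 := by exact_mod_cast (by omega : b + 1 ≠ 0)
  obtain ⟨F, hF⟩ : ∃ F : K[X], F = C (cb K b) * (X * (1 - X) ^ b) := ⟨_, rfl⟩
  obtain ⟨a, ha⟩ : ∃ a : K, a = 1 / ((b : K) + 1) := ⟨_, rfl⟩
  have h1X : (1 - X : K[X]) = -(X - C 1) := by rw [C_1]; ring
  have h1X0 : (1 - X : K[X]) ≠ 0 := by
    rw [h1X]
    exact neg_ne_zero.2 (X_sub_C_ne_zero 1)
  have hdeg : F.natDegree = b + 1 := by
    rw [hF, natDegree_C_mul hc, natDegree_mul X_ne_zero (pow_ne_zero _ h1X0), natDegree_X,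
      natDegree_pow, h1X, natDegree_neg, natDegree_X_sub_C]
    omega
  have hFa : F.eval a = 1 := by
    rw [hF]
    simp only [eval_mul, eval_C, eval_X, eval_pow, eval_sub, eval_one]
    have : 1 - a = b / ((b : K) + 1) := by
      rw [ha]
      field_simp
      ring
    rw [this, ha, cb, div_pow, pow_succ]
    field_simp
  have hder : (derivative F).eval a = 0 := by
    rw [hF]
    simp only [derivative_mul, derivative_C, derivative_X, derivative_pow, derivative_sub,
      derivative_one, eval_mul, eval_C, eval_X, eval_pow, eval_sub, eval_one, eval_add, eval_zero]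
    obtain ⟨m, rfl⟩ : ∃ m, b = m + 1 := ⟨b - 1, by omega⟩
    have : 1 - a = ((m + 1 : ℕ) : K) * a := by
      rw [ha]
      field_simp
      ring
    rw [Nat.add_sub_cancel, pow_succ, this]
    ring
  have hF1 : F - 1 ≠ 0 := by
    intro h0
    have : F = 1 := sub_eq_zero.1 h0
    rw [this, natDegree_one] at hdeg
    omega
  have hroot : (X - C a) ^ 2 ∣ F - 1 := by
    rw [← le_rootMultiplicity_iff hF1]
    have : 1 < rootMultiplicity a (F - 1) := by
      rw [one_lt_rootMultiplicity_iff_isRoot hF1]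
      refine ⟨?_, ?_⟩
      · rw [IsRoot.def, eval_sub, hFa, eval_one, sub_self]
      · rw [IsRoot.def, derivative_sub, derivative_one, sub_zero]
        exact hder
    exact this
  obtain ⟨Q, hQ⟩ := hroot
  have hQ0 : Q ≠ 0 := by
    rintro rfl
    rw [mul_zero] at hQ
    exact hF1 hQ
  have hQd : Q.natDegree = b - 1 := by
    have e1 : (F - 1).natDegree = b + 1 := by
      rw [← C_1, natDegree_sub_C, hdeg]
    rw [hQ, natDegree_mul (pow_ne_zero _ (X_sub_C_ne_zero a)) hQ0, natDegree_pow,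
      natDegree_X_sub_C] at e1
    omega
  rw [← hF]
  refine ⟨by omega, isCoprime_one_right, ?_, (X - C a) * Q, ?_, ?_, b + 1, ?_⟩
  · rw [hdeg, natDegree_one]
    exact max_eq_left (Nat.zero_le _)
  · exact mul_ne_zero (X_sub_C_ne_zero a) hQ0
  · rw [natDegree_mul (X_sub_C_ne_zero a) hQ0, natDegree_X_sub_C, hQd]
    omega
  · rw [mul_one, hQ, mul_pow, mul_pow, mul_pow]
    rw [hF]
    have e1 : C (cb K b) * (X * (1 - X) ^ b) ∣ X ^ (b + 1) * (X - 1) ^ (b + 1) := by
      have u : IsUnit (C (cb K b)) := isUnit_C.2 (isUnit_iff_ne_zero.2 hc)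
      rw [u.mul_left_dvd]
      refine mul_dvd_mul (dvd_pow_self _ (by omega)) ?_
      refine (pow_dvd_pow _ (Nat.le_succ b)).trans (pow_dvd_pow_of_dvd ?_ _)
      exact ⟨-1, by ring⟩
    have e2 : (X - C a) ^ 2 * Q ∣ (X - C a) ^ (b + 1) * Q ^ (b + 1) :=
      mul_dvd_mul (pow_dvd_pow _ (by omega)) (dvd_pow_self _ (by omega))
    exact mul_dvd_mul e1 e2

/-! ### the map `t (2 - t)³ / (2 t - 1)³` -/

theorem bel_phi : Bel (X * (2 - X) ^ 3 : K[X]) ((2 * X - 1) ^ 3) 4 := by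
  have e2 : (2 : K[X]) = C 2 := rfl
  have d1 : (2 - X : K[X]) = -(X - C 2) := by rw [e2]; ring
  have d10 : (2 - X : K[X]) ≠ 0 := by
    rw [d1]
    exact neg_ne_zero.2 (X_sub_C_ne_zero 2)
  have d1d : (2 - X : K[X]).natDegree = 1 := by
    rw [d1, natDegree_neg, natDegree_X_sub_C]
  have d2 : (2 * X - 1 : K[X]) = C 2 * X + C (-1) := by
    rw [C_neg, C_1, ← e2]; ring
  have d2d : (2 * X - 1 : K[X]).natDegree = 1 := by
    rw [d2]
    exact natDegree_linear (by norm_num)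
  have d20 : (2 * X - 1 : K[X]) ≠ 0 := by
    intro h0
    rw [h0, natDegree_zero] at d2d
    exact absurd d2d (by norm_num)
  have d3d : (X + 1 : K[X]).natDegree = 1 := by
    rw [← C_1, natDegree_X_add_C]
  have d30 : (X + 1 : K[X]) ≠ 0 := by
    rw [← C_1]
    exact X_add_C_ne_zero 1
  have h3 : (C (3⁻¹) : K[X]) * 3 = 1 := by
    have : (3 : K[X]) = C 3 := rfl
    rw [this, ← C_mul, inv_mul_cancel₀ (by norm_num), C_1]
  refine ⟨by norm_num, ?_, ?_, (2 - X) * (2 * X - 1) * (X + 1), ?_, ?_, 3, ?_⟩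
  · refine IsCoprime.pow_right ?_
    refine IsCoprime.mul_left ⟨2, -1, by ring⟩ (IsCoprime.pow_left ⟨C (3⁻¹) * 2, C (3⁻¹), ?_⟩)
    linear_combination h3
  · have g1 : (X * (2 - X) ^ 3 : K[X]).natDegree = 4 := by
      rw [natDegree_mul X_ne_zero (pow_ne_zero _ d10), natDegree_X, natDegree_pow, d1d]
    have g2 : ((2 * X - 1 : K[X]) ^ 3).natDegree = 3 := by
      rw [natDegree_pow, d2d]
    rw [g1, g2]
    rfl
  · exact mul_ne_zero (mul_ne_zero d10 d20) d30
  · rw [natDegree_mul (mul_ne_zero d10 d20) d30, natDegree_mul d10 d20, d1d, d2d, d3d]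
  · refine ⟨-(X ^ 2 * (X - 1) ^ 2), ?_⟩
    ring

/-! ### the maps -/

omit [CharZero K] in
/-- a Belyi map with value `0` at `0`, as a function -/
def BelFun (g : K → K) : Prop :=
  ∃ (F G : K[X]) (n : ℕ), Bel F G n ∧ F.eval 0 = 0 ∧ ∀ t, g t = F.eval t / G.eval t

omit [CharZero K] in
theorem BelFun.cont0 {g : K → K} (h : BelFun g) : Cont0 g := by
  obtain ⟨F, G, n, h1, h2, h3⟩ := h
  have := h1.cont0 h2
  intro v δ hδ
  obtain ⟨δ', h4, h5⟩ := this v δ hδ
  refine ⟨δ', h4, fun t ht => ?_⟩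
  rw [h3]
  exact h5 t ht

omit [CharZero K] in
theorem BelFun.good [NumberField K] {g : K → K} (h : BelFun g) : Good g := by
  obtain ⟨F, G, n, h1, h2, h3⟩ := h
  have := h1.good
  have e : g = fun t => F.eval t / G.eval t := funext h3
  rw [e]
  exact this

/-- the map `-4 t / (1 - t)²` -/
def sm (t : K) : K := -4 * t / (1 - t) ^ 2

/-- the map `c t (1 - t) ^ b` -/
noncomputable def fb (b : ℕ) (t : K) : K := cb K b * (t * (1 - t) ^ b)

/-- the map `t (2 - t)³ / (2 t - 1)³` -/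
def ph (t : K) : K := t * (2 - t) ^ 3 / (2 * t - 1) ^ 3

omit [CharZero K] in
theorem belFun_pow {n : ℕ} (hn : 1 ≤ n) : BelFun (fun t : K => t ^ n) := by
  refine ⟨X ^ n, 1, n, bel_pow hn, ?_, fun t => ?_⟩
  · rw [eval_pow, eval_X, zero_pow (by omega)]
  · rw [eval_pow, eval_X, eval_one, div_one]

theorem belFun_sm : BelFun (sm : K → K) := by
  refine ⟨C (-4) * X, (1 - X) ^ 2, 2, bel_s, ?_, fun t => ?_⟩
  · rw [eval_mul, eval_X, mul_zero]
  · rw [eval_mul, eval_C, eval_X, eval_pow, eval_sub, eval_one, eval_X]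
    rfl

theorem belFun_fb {b : ℕ} (hb : 1 ≤ b) : BelFun (fb b : K → K) := by
  refine ⟨C (cb K b) * (X * (1 - X) ^ b), 1, b + 1, bel_b hb, ?_, fun t => ?_⟩
  · rw [eval_mul, eval_mul, eval_X, zero_mul, mul_zero]
  · rw [eval_mul, eval_C, eval_mul, eval_X, eval_pow, eval_sub, eval_one, eval_X, div_one]
    rfl

theorem belFun_ph : BelFun (ph : K → K) := by
  refine ⟨X * (2 - X) ^ 3, (2 * X - 1) ^ 3, 4, bel_phi, ?_, fun t => ?_⟩
  · rw [eval_mul, eval_X, zero_mul]
  · have : ((2 : K[X])).eval t = 2 := by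
      have e2 : (2 : K[X]) = C 2 := rfl
      rw [e2, eval_C]
    rw [eval_mul, eval_X, eval_pow, eval_sub, this, eval_X, eval_pow, eval_sub, eval_mul, this,
      eval_X, eval_one]
    rfl

end Pool.Agent.H420.LC
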