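import Pool.Agent.H420.LC.Maps

/-!
# Moving all points close to `0` at one place
-/

set_option autoImplicit false

namespace Pool.Agent.H420.LC

open NumberField IsDedekindDomain Height Polynomial Pool.Agent.Q290.NF

/-- the class of maps which is used -/
def Nice {K : Type} [Field K] [NumberField K] (g : K → K) : Prop := Good g ∧ Cont0 g

theorem Nice.comp {K : Type} [Field K] [NumberField K] {f g : K → K} (hf : Nice f)
    (hg : Nice g) : Nice (fun t => f (g t)) := ⟨hf.1.comp hg.1, hf.2.comp hg.2⟩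

theorem BelFun.nice {K : Type} [Field K] [NumberField K] {g : K → K} (h : BelFun g) : Nice g :=
  ⟨h.good, h.cont0⟩

/-- at the place `w` finitely many maps move every point to a given neighbourhood of `0` -/
def Reach {K : Type} [Field K] [NumberField K] (w : AbsoluteValue K ℝ) : Prop :=
  ∀ δ : ℝ, 0 < δ → ∃ (I : Type) (s : Set I) (g : I → K → K), s.Finite ∧
    (∀ i ∈ s, Nice (g i)) ∧ ∀ t : K, t ≠ 0 → t ≠ 1 → ∃ i ∈ s, w (g i t) < δ

/-! ### finite places -/

section finite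

variable {K : Type} [Field K] [NumberField K] {w : AbsoluteValue K ℝ}

theorem abv_nat_le (hna : ∀ x y, w (x + y) ≤ max (w x) (w y)) (n : ℕ) : w (n : K) ≤ 1 := by
  induction n with
  | zero => simp
  | succ n ih =>
    rw [Nat.cast_succ]
    exact (hna _ _).trans (max_le ih (by rw [map_one]))

omit [NumberField K] in
theorem abv_sub_le (hna : ∀ x y, w (x + y) ≤ max (w x) (w y)) (x y : K) :
    w (x - y) ≤ max (w x) (w y) := by
  rw [sub_eq_add_neg, ← w.map_neg y]
  exact hna _ _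

/-- `w (1 - t) = w t` when `w t > 1` -/
theorem abv_one_sub (hna : ∀ x y, w (x + y) ≤ max (w x) (w y)) {t : K} (ht : 1 < w t) :
    w (1 - t) = w t := by
  refine le_antisymm ?_ ?_
  · exact (abv_sub_le hna 1 t).trans (max_le (by rw [map_one]; exact ht.le) le_rfl)
  · by_contra h
    rw [not_le] at h
    have h1 : w t ≤ max (w 1) (w (1 - t)) := by
      have : t = 1 - (1 - t) := by ring
      calc w t = w (1 - (1 - t)) := by rw [← this]
        _ ≤ _ := abv_sub_le hna 1 (1 - t)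
    rcases le_max_iff.1 h1 with h2 | h2
    · rw [map_one] at h2
      linarith
    · linarith

theorem abv_fb_lt (hna : ∀ x y, w (x + y) ≤ max (w x) (w y)) {b : ℕ} (hb : 1 ≤ b)
    (hw : w ((b + 1 : ℕ) : K) < 1) {t : K} (ht : w t ≤ 1) :
    w (fb b t) ≤ w ((b + 1 : ℕ) : K) := by
  have h1 : w (b : K) = 1 := by
    refine le_antisymm (abv_nat_le hna b) ?_
    by_contra h
    rw [not_le] at h
    have h2 : w (1 : K) ≤ max (w ((b + 1 : ℕ) : K)) (w (b : K)) := by
      have : (1 : K) = ((b + 1 : ℕ) : K) - b := by push_cast; ring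
      calc w (1 : K) = w (((b + 1 : ℕ) : K) - b) := by rw [← this]
        _ ≤ _ := abv_sub_le hna _ _
    rw [map_one] at h2
    rcases le_max_iff.1 h2 with h3 | h3 <;> linarith
  have h2 : w (1 - t) ≤ 1 := (abv_sub_le hna 1 t).trans (max_le (by rw [map_one]) ht)
  unfold fb cb
  rw [map_mul, map_div₀, map_pow, map_pow, map_mul, map_pow, h1, one_pow, div_one]
  have e : ((b : K) + 1) = ((b + 1 : ℕ) : K) := by push_cast; ring
  rw [e]
  have h3 : w t * w (1 - t) ^ b ≤ 1 :=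
    mul_le_one₀ ht (by positivity) (pow_le_one₀ (w.nonneg _) h2)
  have h4 : w ((b + 1 : ℕ) : K) ^ (b + 1) ≤ w ((b + 1 : ℕ) : K) := by
    have := pow_le_pow_of_le_one (w.nonneg ((b + 1 : ℕ) : K)) hw.le (by omega : 1 ≤ b + 1)
    rwa [pow_one] at this
  calc w ((b + 1 : ℕ) : K) ^ (b + 1) * (w t * w (1 - t) ^ b)
      ≤ w ((b + 1 : ℕ) : K) ^ (b + 1) * 1 :=
        mul_le_mul_of_nonneg_left h3 (pow_nonneg (w.nonneg _) _)
    _ ≤ _ := by rw [mul_one]; exact h4

theorem abv_sm_le (hna : ∀ x y, w (x + y) ≤ max (w x) (w y)) {t : K} (ht : 1 < w t) :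
    w (sm t) ≤ 1 := by
  unfold sm
  rw [map_div₀, map_mul, map_pow, abv_one_sub hna ht, w.map_neg]
  have h1 : w (4 : K) ≤ 1 := by
    have := abv_nat_le hna 4
    simpa using this
  have h2 : 0 < w t := by linarith
  rw [div_le_one (by positivity)]
  nlinarith

theorem reach_finite (hna : ∀ x y, w (x + y) ≤ max (w x) (w y)) {N : ℕ} (hN : 2 ≤ N)
    (hw : w (N : K) < 1) : Reach w := by
  intro δ hδ
  obtain ⟨b, rfl⟩ : ∃ b, N = b + 1 := ⟨N - 1, by omega⟩
  have hb : 1 ≤ b := by omega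
  obtain ⟨n, hn⟩ := exists_pow_lt_of_lt_one hδ hw
  have hn' : w ((b + 1 : ℕ) : K) ^ (n + 1) < δ := by
    refine lt_of_le_of_lt ?_ hn
    exact pow_le_pow_of_le_one (w.nonneg _) hw.le (Nat.le_succ n)
  refine ⟨Bool, Set.univ, fun i t => (fb b (if i then sm t else t)) ^ (n + 1), Set.finite_univ,
    ?_, ?_⟩
  · rintro (_ | _) -
    · have h1 : Nice (fun t : K => (fb b t) ^ (n + 1)) :=
        (belFun_pow (K := K) (by omega : 1 ≤ n + 1)).nice.comp (belFun_fb hb).nice
      simpa using h1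
    · have h1 : Nice (fun t : K => (fb b (sm t)) ^ (n + 1)) :=
        ((belFun_pow (K := K) (by omega : 1 ≤ n + 1)).nice.comp (belFun_fb hb).nice).comp
          belFun_sm.nice
      simpa using h1
  · intro t _ _
    rcases le_or_gt (w t) 1 with h | h
    · refine ⟨false, Set.mem_univ _, ?_⟩
      have h2 := abv_fb_lt hna hb hw h
      have h3 : w ((fb b t) ^ (n + 1)) < δ := by
        rw [map_pow]
        exact (pow_le_pow_left₀ (w.nonneg _) h2 _).trans_lt hn'
      simpa using h3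
    · refine ⟨true, Set.mem_univ _, ?_⟩
      have h2 := abv_fb_lt hna hb hw (abv_sm_le hna h)
      have h3 : w ((fb b (sm t)) ^ (n + 1)) < δ := by
        rw [map_pow]
        exact (pow_le_pow_left₀ (w.nonneg _) h2 _).trans_lt hn'
      simpa using h3

theorem reach_isFinitePlace (hw : IsFinitePlace w) : Reach w := by
  obtain ⟨v, hv⟩ := (isFinitePlace_iff w).1 hw
  subst hv
  have hN : 2 ≤ Ideal.absNorm v.maximalIdeal.asIdeal := by
    have h1 : Ideal.absNorm v.maximalIdeal.asIdeal ≠ 0 := by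
      rw [Ne, Ideal.absNorm_eq_zero_iff]
      exact v.maximalIdeal.ne_bot
    have h2 : Ideal.absNorm v.maximalIdeal.asIdeal ≠ 1 := by
      rw [Ne, Ideal.absNorm_eq_one_iff]
      exact v.maximalIdeal.isPrime.ne_top
    omega
  refine reach_finite (fun x y => v.add_le x y) hN ?_
  have h1 : ((Ideal.absNorm v.maximalIdeal.asIdeal : ℕ) : 𝓞 K) ∈ v.maximalIdeal.asIdeal :=
    Ideal.absNorm_mem _
  have h2 := (FinitePlace.norm_lt_one_iff_mem K v.maximalIdeal _).2 h1
  rw [FinitePlace.norm_embedding_eq, map_natCast] at h2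
  exact h2

end finite

/-! ### infinite places -/

/-- the maps used at infinite places -/
noncomputable def wd {K : Type} [Field K] (i : ℕ × Bool × ℕ) (t : K) : K :=
  if i.2.1 then sm ((if i.1 = 0 then t else fb i.1 t) ^ (i.2.2 + 1))
  else (if i.1 = 0 then t else fb i.1 t) ^ (i.2.2 + 1)

theorem wd_nice {K : Type} [Field K] [NumberField K] (i : ℕ × Bool × ℕ) :
    Nice (wd i : K → K) := by
  obtain ⟨b, s, n⟩ := i
  have h1 : Nice (fun t : K => if b = 0 then t else fb b t) := by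
    by_cases hb : b = 0
    · simp only [hb, if_true]
      have := (belFun_pow (K := K) le_rfl).nice
      simpa using this
    · simp only [hb, if_false]
      exact (belFun_fb (by omega)).nice
  have h2 : Nice (fun t : K => (if b = 0 then t else fb b t) ^ (n + 1)) :=
    (belFun_pow (K := K) (by omega : 1 ≤ n + 1)).nice.comp h1
  cases s
  · exact h2
  · exact belFun_sm.nice.comp h2

theorem map_sm {K L : Type} [Field K] [Field L] (φ : K →+* L) (t : K) : φ (sm t) = sm (φ t) := by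
  unfold sm
  rw [map_div₀, map_mul, map_pow, map_sub, map_one, map_neg, map_ofNat]

theorem map_fb {K L : Type} [Field K] [Field L] (φ : K →+* L) (b : ℕ) (t : K) :
    φ (fb b t) = fb b (φ t) := by
  unfold fb cb
  simp [map_div₀]

theorem map_wd {K L : Type} [Field K] [Field L] (φ : K →+* L) (i : ℕ × Bool × ℕ) (t : K) :
    φ (wd i t) = wd i (φ t) := by
  unfold wd
  split_ifs
  · rw [map_sm, map_pow]
  · rw [map_sm, map_pow, map_fb]
  · rw [map_pow]
  · rw [map_pow, map_fb]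

theorem norm_sm_le {Y : ℂ} (hY : 2 ≤ ‖Y‖) : ‖sm Y‖ ≤ 16 / ‖Y‖ := by
  unfold sm
  rw [norm_div, norm_mul, norm_pow, norm_neg]
  have h1 : ‖Y‖ / 2 ≤ ‖1 - Y‖ := by
    have h2 : ‖Y‖ ≤ ‖1 - Y‖ + 1 := by
      calc ‖Y‖ = ‖(1 : ℂ) - (1 - Y)‖ := by congr 1; ring
        _ ≤ ‖(1 : ℂ)‖ + ‖1 - Y‖ := norm_sub_le _ _
        _ = _ := by rw [norm_one]; ring
    linarith
  have h3 : 0 < ‖Y‖ := by linarith
  have h4 : ‖(4 : ℂ)‖ = 4 := by simp
  rw [h4, div_le_div_iff₀ (by nlinarith) h3]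
  nlinarith

/-- a point `y` not on the unit circle -/
theorem one_step {y : ℂ} (hy : ‖y‖ ≠ 1) {δ : ℝ} (hδ : 0 < δ) :
    ∃ (s : Bool) (n : ℕ), (s = true → y ^ (n + 1) ≠ 1) ∧
      ‖(if s then sm (y ^ (n + 1)) else y ^ (n + 1))‖ < δ := by
  rcases lt_or_gt_of_ne hy with h | h
  · obtain ⟨n, hn⟩ := exists_pow_lt_of_lt_one hδ h
    refine ⟨false, n, by simp, ?_⟩
    simp only [Bool.false_eq_true, if_false]
    rw [norm_pow]
    exact (pow_le_pow_of_le_one (norm_nonneg _) h.le (Nat.le_succ n)).trans_lt hn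
  · obtain ⟨n, hn⟩ := pow_unbounded_of_one_lt (max 2 (16 / δ)) h
    have h1 : max 2 (16 / δ) < ‖y ^ (n + 1)‖ := by
      rw [norm_pow]
      exact hn.trans_le (pow_le_pow_right₀ h.le (Nat.le_succ n))
    have h2 : 2 < ‖y ^ (n + 1)‖ := (le_max_left _ _).trans_lt h1
    have h3 : 16 / δ < ‖y ^ (n + 1)‖ := (le_max_right _ _).trans_lt h1
    refine ⟨true, n, fun _ h4 => ?_, ?_⟩
    · rw [h4, norm_one] at h2
      linarith
    · simp only [if_true]
      refine (norm_sm_le h2.le).trans_lt ?_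
      rw [div_lt_iff₀ (by linarith)]
      rw [div_lt_iff₀ hδ] at h3
      linarith

theorem exists_base (z : ℂ) : ∃ b : ℕ, ‖(if b = 0 then z else fb b z)‖ ≠ 1 := by
  by_cases h0 : ‖z‖ = 1
  · by_cases h1 : ‖fb 1 z‖ = 1
    · refine ⟨2, ?_⟩
      rw [if_neg (by norm_num)]
      unfold fb cb at h1 ⊢
      rw [norm_mul, norm_mul, h0, norm_pow] at h1 ⊢
      have e1 : ‖(((1 : ℕ) : ℂ) + 1) ^ (1 + 1) / ((1 : ℕ) : ℂ) ^ 1‖ = 4 := by
        norm_num
      have e2 : ‖(((2 : ℕ) : ℂ) + 1) ^ (2 + 1) / ((2 : ℕ) : ℂ) ^ 2‖ = 27 / 4 := by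
        norm_num
      rw [e1] at h1
      rw [e2]
      have h2 : ‖1 - z‖ = 1 / 4 := by linarith
      rw [h2]
      norm_num
    · exact ⟨1, by simpa using h1⟩
  · exact ⟨0, by simpa using h0⟩

theorem wd_continuousAt {i : ℕ × Bool × ℕ} {z : ℂ}
    (h : i.2.1 = true → (if i.1 = 0 then z else fb i.1 z) ^ (i.2.2 + 1) ≠ 1) :
    ContinuousAt (wd i : ℂ → ℂ) z := by
  obtain ⟨b, s, n⟩ := i
  have h1 : Continuous (fun t : ℂ => (if b = 0 then t else fb b t) ^ (n + 1)) := by
    by_cases hb : b = 0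
    · simp only [hb, if_true]
      fun_prop
    · simp only [hb, if_false]
      unfold fb
      fun_prop
  cases s
  · exact h1.continuousAt
  · have h2 : ContinuousAt (sm : ℂ → ℂ) ((if b = 0 then z else fb b z) ^ (n + 1)) := by
      unfold sm
      refine ContinuousAt.div (by fun_prop) (by fun_prop) ?_
      refine pow_ne_zero 2 (sub_ne_zero.2 fun h3 => h rfl h3.symm)
    exact ContinuousAt.comp (f := fun t : ℂ => (if b = 0 then t else fb b t) ^ (n + 1))
      (g := sm) h2 h1.continuousAt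

theorem local_cover (z : ℂ) {δ : ℝ} (hδ : 0 < δ) :
    ∃ i : ℕ × Bool × ℕ, ∀ᶠ y in nhds z, ‖wd i y‖ < δ := by
  obtain ⟨b, hb⟩ := exists_base z
  obtain ⟨s, n, h1, h2⟩ := one_step hb hδ
  refine ⟨(b, s, n), ?_⟩
  have h3 : ContinuousAt (fun y : ℂ => ‖wd (b, s, n) y‖) z := (wd_continuousAt h1).norm
  exact h3.eventually_lt continuousAt_const h2

theorem reach_infinite {K : Type} [Field K] [NumberField K] (φ : K →+* ℂ)
    {w : AbsoluteValue K ℝ} (hw : ∀ t, w t = ‖φ t‖) : Reach w := by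
  intro δ hδ
  choose i hi using fun z : ℂ => local_cover z hδ
  obtain ⟨s, -, hs⟩ := (isCompact_closedBall (0 : ℂ) 2).elim_nhds_subcover
    (fun z => {y : ℂ | ‖wd (i z) y‖ < δ}) (fun z _ => hi z)
  obtain ⟨n, hn⟩ := pow_unbounded_of_one_lt (max 2 (16 / δ)) (by norm_num : (1 : ℝ) < 2)
  refine ⟨ℕ × Bool × ℕ, insert (0, true, n) (i '' s), fun j => wd j,
    (s.finite_toSet.image i).insert _, fun j _ => wd_nice j, fun t _ _ => ?_⟩
  rcases le_or_gt ‖φ t‖ 2 with h | h
  · have h1 : φ t ∈ Metric.closedBall (0 : ℂ) 2 := by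
      rw [mem_closedBall_zero_iff]
      exact h
    obtain ⟨z, hz, h2⟩ := Set.mem_iUnion₂.1 (hs h1)
    refine ⟨i z, Set.mem_insert_of_mem _ ⟨z, hz, rfl⟩, ?_⟩
    rw [hw, map_wd]
    exact h2
  · refine ⟨(0, true, n), Set.mem_insert _ _, ?_⟩
    rw [hw, map_wd]
    have h1 : max 2 (16 / δ) < ‖(φ t) ^ (n + 1)‖ := by
      rw [norm_pow]
      refine hn.trans_le ?_
      refine (pow_le_pow_right₀ (by norm_num) (Nat.le_succ n)).trans ?_
      exact pow_le_pow_left₀ (by norm_num) h.le _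
    have h2 : 2 < ‖(φ t) ^ (n + 1)‖ := (le_max_left _ _).trans_lt h1
    have h3 : 16 / δ < ‖(φ t) ^ (n + 1)‖ := (le_max_right _ _).trans_lt h1
    have h4 : ‖sm ((φ t) ^ (n + 1))‖ < δ := by
      refine (norm_sm_le h2.le).trans_lt ?_
      rw [div_lt_iff₀ (by linarith)]
      rw [div_lt_iff₀ hδ] at h3
      linarith
    exact h4

theorem reach_isInfinitePlace {K : Type} [Field K] [NumberField K] {w : AbsoluteValue K ℝ}
    (hw : IsInfinitePlace w) : Reach w := by
  obtain ⟨φ, hφ⟩ := hw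
  refine reach_infinite φ fun t => ?_
  rw [← hφ]
  rfl

end Pool.Agent.H420.LC
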